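import Pool.Agent.H28.RV.Fix
import Pool.Agent.H30.LP.Nie

/-!
# The number of the velocities of the targets given the near path, at real windows: one box

`RtW`: given the near path over the charts of `b` and the record at `x`, the velocities of the targets
to the natural digits of `o` have `ρ` bits, up to `κ`. `rt_real`: from the statements at the indices.
-/

set_option autoImplicit false

namespace Pool.RV28

open Finset Real MvPolynomial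
open Pool.Agent.H49.Ent Pool.Agent.H32.Dense Pool.STK Pool.KA Pool.KSAT Pool.K2S Pool.PB Pool.S6C
  Pool.GEN Pool.RCD Pool.LA91 Pool.LP30
open Pool.OWN83 (TwoRelS TRelS)
open Pool.OWN68 (cl2_vg)

section

variable {Ω D D' P P' W Z Z' X X' : Type} [Fintype Ω] {q : Ω → ℝ}

/-- **Other charts and other windows**: from above. -/
theorem swap_up (h0 : ∀ ω, 0 ≤ q ω) {u : Ω → D} {v : Ω → D'} {pa : Ω → P}
    {pb : Ω → P'} {w : Ω → W} {x : Ω → X} {z : Ω → Z} {E k k₁ : ℝ}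
    (ni : CH q v (fun ω => (pb ω, (z ω, w ω))) ≤ E)
    (h1 : CH q u (fun ω => ((pa ω, v ω), (x ω, w ω))) ≤ k₁)
    (h3 : CH q pb (fun ω => (pa ω, (x ω, w ω))) ≤ k)
    (h4 : CH q z x ≤ k) :
    CH q u (fun ω => (pa ω, (x ω, w ω))) ≤ E + 2 * k + k₁ := by
  have s1 := CH_le_add h0 u v (fun ω => (pa ω, (x ω, w ω)))
  have s1' : CH q u (fun ω => (v ω, (pa ω, (x ω, w ω)))) ≤
      CH q u (fun ω => ((pa ω, v ω), (x ω, w ω))) := by
    refine CH_mono_cond h0 fun ω ω' _ _ h => ?_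
    simp only [Prod.mk.injEq] at h ⊢
    tauto
  have s2 := CH_le_add h0 v (fun ω => (pb ω, z ω)) (fun ω => (pa ω, (x ω, w ω)))
  have s2' : CH q v (fun ω => ((pb ω, z ω), (pa ω, (x ω, w ω)))) ≤
      CH q v (fun ω => (pb ω, (z ω, w ω))) := by
    refine CH_mono_cond h0 fun ω ω' _ _ h => ?_
    simp only [Prod.mk.injEq] at h ⊢
    tauto
  have s4 := CH_subadd h0 pb z (fun ω => (pa ω, (x ω, w ω)))
  have s4'' : CH q z (fun ω => (pa ω, (x ω, w ω))) ≤ CH q z x := by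
    refine CH_mono_cond h0 fun ω ω' _ _ h => ?_
    simp only [Prod.mk.injEq] at h
    exact h.2.1
  linarith

/-- **Other charts and other windows**: from below. -/
theorem swap_lo (h0 : ∀ ω, 0 ≤ q ω) {u : Ω → D} {v : Ω → D'} {pa : Ω → P}
    {pb : Ω → P'} {w : Ω → W} {x' : Ω → X'} {z' : Ω → Z'} {E k k₃ : ℝ}
    (ni : E ≤ CH q v (fun ω => (pb ω, (z' ω, w ω))))
    (h5 : CH q pa (fun ω => (pb ω, (z' ω, w ω))) ≤ k)
    (h6 : CH q v (fun ω => ((pa ω, u ω), (z' ω, w ω))) ≤ k₃)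
    (h7 : CH q x' z' ≤ k) :
    E ≤ CH q u (fun ω => (pa ω, (x' ω, w ω))) + 2 * k + k₃ := by
  have s5 := CH_le_add h0 v (fun ω => (u ω, (pa ω, x' ω))) (fun ω => (pb ω, (z' ω, w ω)))
  have s5' : CH q v (fun ω => ((u ω, (pa ω, x' ω)), (pb ω, (z' ω, w ω)))) ≤
      CH q v (fun ω => ((pa ω, u ω), (z' ω, w ω))) := by
    refine CH_mono_cond h0 fun ω ω' _ _ h => ?_
    simp only [Prod.mk.injEq] at h ⊢
    tauto
  have s6 := CH_chain h0 u (fun ω => (pa ω, x' ω)) (fun ω => (pb ω, (z' ω, w ω)))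
  have s6' : CH q u (fun ω => ((pa ω, x' ω), (pb ω, (z' ω, w ω)))) ≤
      CH q u (fun ω => (pa ω, (x' ω, w ω))) := by
    refine CH_mono_cond h0 fun ω ω' _ _ h => ?_
    simp only [Prod.mk.injEq] at h ⊢
    tauto
  have s7 := CH_subadd h0 pa x' (fun ω => (pb ω, (z' ω, w ω)))
  have s7' : CH q x' (fun ω => (pb ω, (z' ω, w ω))) ≤ CH q x' z' := by
    refine CH_mono_cond h0 fun ω ω' _ _ h => ?_
    simp only [Prod.mk.injEq] at h
    exact h.2.1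
  linarith

end

variable {m : ℕ} {S : PCl m} {γ : ∀ J : ℕ, Fam m J → Type}
  {y₀ : ∀ (J : ℕ) (F : Fam m J), F.Ω → γ J F}

/-- **The number of bits of the velocities of the targets** over the charts of `b`, to the natural
digits of `o`, given the near path over the charts of `b` and the record at `x`: `ρ`, up to `κ`. -/
def RtW (S : PCl m) (y₀ : ∀ (J : ℕ) (F : Fam m J), F.Ω → γ J F) (c : ℕ → Fin m) (d : ℕ) {n : ℕ}
    (k : Fin n → Fin m) (sn : ℕ → ℝ → ℝ)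
    (T : Fin n → ℝ → ℝ) (nH nV : ℕ → ℝ) (b x o ρ κ : ℝ) : Prop :=
  ∃ κ₁ : ℝ, 0 < κ₁ ∧ ∃ e₀ : ℝ, 0 < e₀ ∧ ∀ K : ℕ, Bas S (fun J F A =>
    ∀ (V : Type) (z : F.Ω → V), Mx (fun J F => ptr F J) (vg x) κ₁ F A z →
    ∀ u pa, (tgR m c d k T b o).P K e₀ J F A u →
    (paQ m c d b (fun l => sn l b) nH nV).P K e₀ J F A pa →
    |CH (Pool.Agent.H49.Ent.cond F.p A True) u (fun ω => (pa ω, (z ω, y₀ J F ω))) - ρ * J| ≤
      κ * J)

theorem RtW.sub {S' : PCl m} (hs : ∀ (τ : ℝ) (J : ℕ) (F : Fam m J) (A : F.Ω → Prop),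
    S'.St τ J F A → S.St τ J F A) {c : ℕ → Fin m} {d n : ℕ} {k : Fin n → Fin m}
    {sn : ℕ → ℝ → ℝ} {T : Fin n → ℝ → ℝ} {nH nV : ℕ → ℝ} {b x o ρ κ : ℝ}
    (h : RtW S y₀ c d k sn T nH nV b x o ρ κ) : RtW S' y₀ c d k sn T nH nV b x o ρ κ := by
  obtain ⟨k₁, hk, e, he, H⟩ := h
  exact ⟨k₁, hk, e, he, fun K => (H K).sub hs⟩

/-- From above, at the indices: the record at `zw`, the charts at `wc`. -/
def UpX (S : PCl m) (y₀ : ∀ (J : ℕ) (F : Fam m J), F.Ω → γ J F) (c : ℕ → Fin m) (d : ℕ) {n : ℕ}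
    (k : Fin n → Fin m) (sn : ℕ → ℝ → ℝ)
    (T : Fin n → ℝ → ℝ) (nH nV : ℕ → ℝ) (wc zw oc κ : ℝ) : Prop :=
  ∀ ε : ℝ, 0 < ε → ∃ κ₁ : ℝ, 0 < κ₁ ∧ ∃ e₀ : ℝ, 0 < e₀ ∧ ∀ K : ℕ, Bas S (fun J F A =>
    ∀ (V : Type) (z : F.Ω → V), Mx (fun J F => ptr F J) (vg zw) κ₁ F A z →
    ∀ u pa, (tgR m c d k T wc oc).P K e₀ J F A u →
    (paQ m c d wc (fun l => sn l wc) nH nV).P K e₀ J F A pa →
    CH (Pool.Agent.H49.Ent.cond F.p A True) u (fun ω => (pa ω, (z ω, y₀ J F ω))) ≤ (κ + ε) * J)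

/-- From below, at the indices: the record at `zv`, the charts at `wc`. -/
def LoX (S : PCl m) (y₀ : ∀ (J : ℕ) (F : Fam m J), F.Ω → γ J F) (c : ℕ → Fin m) (d : ℕ) {n : ℕ}
    (k : Fin n → Fin m) (sn : ℕ → ℝ → ℝ)
    (T : Fin n → ℝ → ℝ) (nH nV : ℕ → ℝ) (wc zv oc κ : ℝ) : Prop :=
  ∀ ε : ℝ, 0 < ε → ∃ κ₁ : ℝ, 0 < κ₁ ∧ ∃ e₀ : ℝ, 0 < e₀ ∧ ∀ K : ℕ, Bas S (fun J F A =>
    ∀ (V : Type) (z : F.Ω → V), Mx (fun J F => ptr F J) (vg zv) κ₁ F A z →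
    ∀ u pa, (tgR m c d k T wc oc).P K e₀ J F A u →
    (paQ m c d wc (fun l => sn l wc) nH nV).P K e₀ J F A pa →
    (κ - ε) * J ≤ CH (Pool.Agent.H49.Ent.cond F.p A True) u (fun ω => (pa ω, (z ω, y₀ J F ω))))

section

variable {sn : ℕ → ℝ → ℝ} {d n : ℕ} {T : Fin n → ℝ → ℝ} {G : Set ℝ} {nH nV lv : ℕ → ℝ}
  {b x o wc vc oc E X Sg φ R κ₀ : ℝ}

/-- **From the indices to the real windows.** -/
theorem rt_real {c : ℕ → Fin m} {k : Fin n → Fin m} {C₀ : ℝ} (hsd : SdI c y₀) (htm : TmC S C₀)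
    (hpos : ∀ (τ : ℝ) (J : ℕ) (F : Fam m J) (A : F.Ω → Prop), S.St τ J F A → 0 < Pe F.p A)
    (hW : ChG S c d sn G)
    (att : ∀ i, ∀ w ∈ G, ∃ rk : ℝ, 0 ≤ rk ∧ Att S ((range d).image c) (k i) w (T i w) rk)
    (h : BoxW sn d T G nH nV lv b x x o wc vc oc E X Sg φ R κ₀) {zw zv ρ ρ₁ ρ₂ κ : ℝ}
    (hzw : zw ≤ x)
    (hzv : x ≤ zv) (hzv1 : zv ≤ 1) (hη : ∃ η, RNum S (fun J F => ptr F J) (vg zw) η)
    (hη' : ∃ η, RNum S (fun J F => ptr F J) (vg zv) η)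
    (hU : UpX S y₀ c d k sn T nH nV wc zw oc ρ₁) (hL : LoX S y₀ c d k sn T nH nV wc zv oc ρ₂)
    (h1 : ρ₁ ≤ ρ + κ) (h2 : ρ - κ ≤ ρ₂) {ε : ℝ} (hε : 0 < ε) :
    RtW S y₀ c d k sn T nH nV b x o ρ (κ + n * (2 * (Sg * E) + E) + ε) := by
  obtain ⟨δ, hδ, hδε⟩ : ∃ δ : ℝ, 0 < δ ∧ 8 * δ = ε := ⟨ε / 8, by positivity, by ring⟩
  obtain ⟨W, hWG, hWm, bW, wW, Wx⟩ := h.mx
  have hfp : ∀ (J : ℕ) (F : Fam m J), ∃ χ : PtT F → PtT F, ∀ ω, ptr F J ω = χ (ptr F J ω) :=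
    fun J F => ⟨fun x => x, fun _ => rfl⟩
  have nb := h.nrB hWm bW Wx
  have nw := h.nrW hWm wW Wx
  have hl2 : 0 < Real.log 2 := Real.log_pos one_lt_two
  have hl21 : Real.log 2 ≤ 1 := by
    have := Real.log_two_lt_d9
    linarith
  have hSE : 0 ≤ 2 * (Sg * E) + E := by
    have := mul_nonneg h.Sg0 h.E0.le
    linarith [h.E0]
  have hlog : ∀ {t : ℝ}, t ≤ 2 * (Sg * E) + E → 0 ≤ t → Real.log 2 * t ≤ 2 * (Sg * E) + E := by
    intro t h1 h2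
    nlinarith
  have hx1 : x ≤ 1 := hzv.trans hzv1
  obtain ⟨pp3, pp4⟩ := h.pp hWm Wx
  have pp3' : ∀ l < d, nH l + X / 2 ≤ min (sn l wc) (sn l b) + (1 - W) ∧
      nV l + W + X / 2 ≤ min (sn l wc) (sn l b) + (1 - W) := fun l hl => by
    rw [min_comm]
    exact pp3 l hl
  have pp4' : ∀ l < d, ∀ l' < l, nH l + X / 2 ≤ min (sn l wc) (sn l b) + lv l' ∧
      nV l + W + X / 2 ≤ min (sn l wc) (sn l b) + lv l' := fun l hl => by
    rw [min_comm]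
    exact pp4 l hl
  -- up
  have up : ∀ {U U' : Type} {Q : Qt m U} {Q' : Qt m U'} {a v : ℝ}, W ≤ v → v ≤ 1 →
      FewC S (fun J F => ptr F J) (vg W) y₀ Q Q' a →
      FewC S (fun J F => ptr F J) (vg v) y₀ Q Q' a := fun h1 h2 h3 =>
    FewC.up hpos (fun J F => ⟨fun x => x, fun _ => rfl⟩) (fun J F => vg_mono h1 h2 J F)
      (fun J F => ⟨fun x => x, fun _ => rfl⟩) h3
  have mem_b : b ∈ ({b, wc, vc, oc, x, o} : Set ℝ) := by simp
  have mem_w : wc ∈ ({b, wc, vc, oc, x, o} : Set ℝ) := by simp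
  have mem_oc : oc ∈ ({b, wc, vc, oc, x, o} : Set ℝ) := by simp
  have mem_o : o ∈ ({b, wc, vc, oc, x, o} : Set ℝ) := by simp
  -- the velocities
  have q1 := up Wx hx1 (fewC_tg (f := fun J F => ptr F J) (y := y₀) htm hpos hW hfp hsd.kn
    hWG nb (k := k) (w₁ := wc) (w₂ := b) (p₁ := fun i => T i wc) (p₂ := fun i => T i b)
    (N₁ := fun i => T i oc - oc) (N₂ := fun i => T i o - o)
    (M := fun i => min (T i oc - oc) (T i o - o)) (c₀ := 2 * (Sg * E) + E) wW bW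
    (fun i => min_le_left _ _) (fun i => min_le_right _ _) (fun i => by
      have h1 := (h.tc i mem_oc mem_o (by linarith [h.oo', h.E0])).1
      rcases min_choice (T i oc - oc) (T i o - o) with h2 | h2
      · refine hlog ?_ ?_
        · rw [h2]
          linarith
        · linarith [min_le_right (T i oc - oc) (T i o - o)]
      · rw [h2, sub_self, mul_zero]
        exact hSE)
    (fun i => by
      rw [min_comm (T i wc)]
      exact (h.tt hWm Wx i (Or.inl (min_le_right _ _))).1)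
    (fun i => by
      rw [min_comm (T i wc)]
      exact (h.tt hWm Wx i (Or.inl (min_le_right _ _))).2))
  have q6 := up (Wx.trans hzv) hzv1 (fewC_tg (f := fun J F => ptr F J) (y := y₀) htm hpos
    hW hfp hsd.kn hWG nb (k := k) (w₁ := b) (w₂ := wc) (p₁ := fun i => T i b) (p₂ := fun i => T i wc)
    (N₁ := fun i => T i o - o) (N₂ := fun i => T i oc - oc)
    (M := fun i => min (T i o - o) (T i oc - oc)) (c₀ := 2 * (Sg * E) + E) bW wW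
    (fun i => min_le_left _ _) (fun i => min_le_right _ _) (fun i => by
      have h1 := (h.tc i mem_o mem_oc (by linarith [h.oo, h.E0])).1
      rcases min_choice (T i o - o) (T i oc - oc) with h2 | h2
      · refine hlog ?_ ?_
        · rw [h2]
          linarith
        · linarith [min_le_right (T i o - o) (T i oc - oc)]
      · rw [h2, sub_self, mul_zero]
        exact hSE)
    (fun i => (h.tt hWm Wx i (Or.inl (min_le_left _ _))).1)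
    (fun i => (h.tt hWm Wx i (Or.inl (min_le_left _ _))).2))
  -- the near path
  have q3 := up Wx hx1 (few_paC (f := fun J F => ptr F J) (y := y₀) htm hpos hW hfp hsd.kn
    hWG nb wW pp3 pp4).fewC
  have q5 := up (Wx.trans hzv) hzv1 (few_paC (f := fun J F => ptr F J) (y := y₀) htm hpos
    hW hfp hsd.kn hWG nw bW pp3' pp4').fewC
  obtain ⟨k0, hk0, e0, he0, H0⟩ := hU δ hδ
  obtain ⟨k0', hk0', e0', he0', H0'⟩ := hL δ hδ
  obtain ⟨e1, he1, H1⟩ := q1.mx hpos δ hδ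
  obtain ⟨e3, he3, H3⟩ := q3.mx hpos δ hδ
  obtain ⟨e5, he5, H5⟩ := q5.mx hpos δ hδ
  obtain ⟨e6, he6, H6⟩ := q6.mx hpos δ hδ
  obtain ⟨e₀, he₀, l0, l0', l1, l3, l5, l6⟩ : ∃ e₀ : ℝ, 0 < e₀ ∧ e₀ ≤ e0 ∧ e₀ ≤ e0' ∧ e₀ ≤ e1 ∧
      e₀ ≤ e3 ∧ e₀ ≤ e5 ∧ e₀ ≤ e6 := by
    refine ⟨min (min (min e0 e0') (min e1 e3)) (min e5 e6), by positivity, ?_, ?_, ?_, ?_, ?_, ?_⟩ <;>
      simp
  obtain ⟨κ₁, hκ₁, m1, m1', m2⟩ : ∃ κ₁ : ℝ, 0 < κ₁ ∧ κ₁ ≤ k0 ∧ κ₁ ≤ k0' ∧ κ₁ ≤ δ / 2 :=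
    ⟨min (min k0 k0') (δ / 2), by positivity, by simp, by simp, by simp⟩
  have xw : ∀ v : ℝ, Exs S (tgR m c d k T wc v) := fun v => exs_pi fun i => by
    obtain ⟨rk, r1, r2⟩ := att i wc h.gw
    exact exs_jet r1 r2
  obtain ⟨K₁, M₁, X1⟩ := xw oc e₀ he₀
  obtain ⟨K₃, M₃, X3⟩ := exs_pa hW h.gw nH nV e₀ he₀
  obtain ⟨η, hη⟩ := hη
  obtain ⟨η', hη'⟩ := hη'
  refine ⟨κ₁, hκ₁, e₀, he₀, fun K => ?_⟩
  obtain ⟨L, hL0, hL1, hL3⟩ : ∃ L : ℕ, K ≤ L ∧ K₁ ≤ L ∧ K₃ ≤ L :=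
    ⟨max K (max K₁ K₃), le_max_left _ _, (le_max_left _ _).trans (le_max_right _ _),
      (le_max_right _ _).trans (le_max_right _ _)⟩
  refine Bas.mono 0 (((((H0 L).and (H0' L)).and ((H1 L).and (H3 L))).and ((H5 L).and (H6 L))).and
    (((mx_ex hpos hη κ₁ hκ₁).and (mx_ex hpos hη' κ₁ hκ₁)).and
      ((pos_bas hpos).and (X1.and X3)))) ?_
  rintro J - F A ⟨⟨⟨⟨H0, H0'⟩, H1, H3⟩, H5, H6⟩, ⟨⟨Vw, zq, hzq⟩, Vv, zr, hzr⟩, hA,
    ⟨v, hv, -⟩, pb, hpb, -⟩ V z hz u pa hu hpa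
  have hcl := isLaw_cond F.isLaw hA
  have hJ0 : (0 : ℝ) ≤ J := Nat.cast_nonneg J
  have hv := (tgR m c d k T wc oc).mono hL1 le_rfl hv
  have hpb := (paQ m c d wc (fun l => sn l wc) nH nV).mono hL3 le_rfl hpb
  have hu := (tgR m c d k T b o).mono hL0 le_rfl hu
  have hpa := (paQ m c d b (fun l => sn l b) nH nV).mono hL0 le_rfl hpa
  -- the records
  have hz2 := hz.le' m2
  have hzr2 := hzr.le' m2
  have r0 := H0 _ zq (hzq.le' m1) v pb ((tgR m c d k T wc oc).mono le_rfl l0 hv)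
    ((paQ m c d _ _ nH nV).mono le_rfl l0 hpb)
  have r0' := H0' _ zr (hzr.le' m1') v pb ((tgR m c d k T wc oc).mono le_rfl l0' hv)
    ((paQ m c d _ _ nH nV).mono le_rfl l0' hpb)
  have r1 := H1 _ z hz2 (fun ω => (pa ω, v ω)) u
    ⟨(paQ m c d _ _ nH nV).mono le_rfl l1 hpa, (tgR m c d k T wc oc).mono le_rfl l1 hv⟩
    ((tgR m c d k T b o).mono le_rfl l1 hu)
  have r3 := H3 _ z hz2 pa pb ((paQ m c d _ _ nH nV).mono le_rfl l3 hpa)
    ((paQ m c d _ _ nH nV).mono le_rfl l3 hpb)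
  have r5 := H5 _ zr hzr2 pb pa ((paQ m c d _ _ nH nV).mono le_rfl l5 hpb)
    ((paQ m c d _ _ nH nV).mono le_rfl l5 hpa)
  have r6 := H6 _ zr hzr2 (fun ω => (pa ω, u ω)) v
    ⟨(paQ m c d _ _ nH nV).mono le_rfl l6 hpa, (tgR m c d k T b o).mono le_rfl l6 hu⟩
    ((tgR m c d k T wc oc).mono le_rfl l6 hv)
  have r4 := hz.2 _ zq (cl2_vg (f := fun J F => ptr F J) hzw hx1 hzq.1)
  have r7 := hzr.2 _ z (cl2_vg (f := fun J F => ptr F J) hzv hzv1 hz.1)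
  have hδJ : 0 ≤ δ * J := by positivity
  have hκJ : κ₁ * J ≤ (0 + δ) * J := mul_le_mul_of_nonneg_right (by linarith) hJ0
  have k1 := swap_up hcl.nonneg (q := Pool.Agent.H49.Ent.cond F.p A True) (u := u)
    (v := v) (pa := pa) (pb := pb) (w := y₀ J F) (x := z) (z := zq) r0 r1 r3 (r4.trans hκJ)
  have k2 := swap_lo hcl.nonneg (q := Pool.Agent.H49.Ent.cond F.p A True) (u := u)
    (v := v) (pa := pa) (pb := pb) (w := y₀ J F) (x' := z) (z' := zr) r0' r5 r6 (r7.trans hκJ)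
  have g1 : ρ₁ * J ≤ (ρ + κ) * J := mul_le_mul_of_nonneg_right h1 hJ0
  have g2 : (ρ - κ) * J ≤ ρ₂ * J := mul_le_mul_of_nonneg_right h2 hJ0
  have hSEn : 0 ≤ (n : ℝ) * (2 * (Sg * E) + E) * J := by positivity
  rw [abs_le]
  constructor
  · have e1 : -((κ + n * (2 * (Sg * E) + E) + ε) * J) =
        (ρ - κ) * J - ρ * J - n * (2 * (Sg * E) + E) * J - 8 * (δ * J) := by
      rw [← hδε]
      ring
    have e2 : (ρ₂ - δ) * J = ρ₂ * J - δ * J := by ring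
    have e3 : (0 + δ) * (J : ℝ) = δ * J := by ring
    have e4 : ((n : ℝ) * (2 * (Sg * E) + E) + δ) * J =
      n * (2 * (Sg * E) + E) * J + δ * J := by ring
    rw [e1]
    rw [e2, e3, e4] at k2
    linarith
  · have e1 : (κ + n * (2 * (Sg * E) + E) + ε) * J =
        (ρ + κ) * J - ρ * J + n * (2 * (Sg * E) + E) * J + 8 * (δ * J) := by
      rw [← hδε]
      ring
    have e2 : (ρ₁ + δ) * J = ρ₁ * J + δ * J := by ring
    have e3 : (0 + δ) * (J : ℝ) = δ * J := by ring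
    have e4 : ((n : ℝ) * (2 * (Sg * E) + E) + δ) * J =
      n * (2 * (Sg * E) + E) * J + δ * J := by ring
    rw [e1]
    rw [e2, e3, e4] at k1
    linarith

end

end Pool.RV28
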