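import Pool.Agent.H28.RV.Box
import Pool.Agent.H91.FR.QpG
import Pool.Agent.H3.D2G.Gchf

/-!
# The rate of the velocity of a place as a property of the windows

`rt_all`: `RtG` at almost every window smaller than one, in one subclass. `rt_le`: for all places of
the chain. `VrQ`: the property of a window; `aePG_vr`: it holds at almost every window, in a subclass.
-/

set_option autoImplicit false

namespace Pool.RV28

open Finset Real MvPolynomial MeasureTheory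
open Pool.Agent.H49.Ent Pool.Agent.H32.Dense Pool.STK Pool.KA Pool.KSAT Pool.K2S Pool.PB Pool.S6C
  Pool.GEN Pool.RCD Pool.LA91 Pool.LP30 Pool.PKG Pool.CHT Pool.GRW
open Pool.OWN83 (TwoRelS TRelS ae_shift rel_clsS)
open Pool.AVG96 (fl fl_mem fl_mono le_fl whG gap_ae)
open Pool.TOP (TopS)

section

variable {m : ℕ} {S : PCl m} {γ : ∀ J : ℕ, Fam m J → Type}
  {y₀ : ∀ (J : ℕ) (F : Fam m J), F.Ω → γ J F} {c : ℕ → Fin m} {d : ℕ} {s a A B g Sg : ℝ}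
  {sn : ℕ → ℝ → ℝ} {G : Set ℝ} {n : ℕ} {k : Fin n → Fin m} {T : Fin n → ℝ → ℝ}

/-- **One subclass** with the numbers for all admissible data, all upper ends. -/
theorem ndq_all (hsd : SdI c y₀) (h : ∀ B : ℝ, B < 1 → NiC S c d k sn T G s A B)
    (hA : ∃ u ∈ G, A ≤ u ∧ u ≤ a + s) :
    ∃ S' : PCl m, S'.Ne ∧
      (∀ (τ : ℝ) (J : ℕ) (F : Fam m J) (A : F.Ω → Prop), S'.St τ J F A → S.St τ J F A) ∧
      ∃ (θ₀ : EIx d → ℚ → ℝ) (θ : EIx d → ℚ → ℚ → ℝ), ∀ B : ℝ, B < 1 →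
        NdN S' (fun J F => ptr F J) (yG ((range d).image c) y₀) c d s a (B - s) (whG G A s) sn k
          (fun i w => T i (whG G A s w)) θ₀ θ := by
  classical
  have h0 := h 0 one_pos
  have hcut : ∀ i : {i : EIx d // Adm (whG G A s) sn d (fun i w => T i (whG G A s w)) a (1 - s) i ∧
      (i.b : ℝ) < 1 - s},
      TwoRelS S (fun J F => ptr F J) (yG ((range d).image c) y₀) s
        (vlQ m c d (whG G A s) sn (exN i.1.N))
        (tgQ m c d k (whG G A s) (fun i w => T i (whG G A s w))) i.1.a i.1.b i.1.lam := by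
    intro i
    have hB : (i.1.b : ℝ) + s < 1 := by linarith [i.2.2]
    have h1 := vchG (h _ hB) hsd hA
    have h2 := (h _ hB).tgc hA
    rw [add_sub_cancel_right] at h1 h2
    exact rel_V (h1.cut i.2.1.ha le_rfl) (by exact_mod_cast i.2.1.lam0) i.2.1.ed
      (h2.cut i.2.1.ha le_rfl) i.2.1.tg
  obtain ⟨S', h1, h2, h3⟩ := rel_clsS
    (ι := {i : EIx d // Adm (whG G A s) sn d (fun i w => T i (whG G A s w)) a (1 - s) i ∧
      (i.b : ℝ) < 1 - s}) h0.ne h0.pos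
    (fun _ => Fin d → ℤ) (fun _ => Fin n → ℤ) (fun _ => fun J F => PtT F)
    (fun _ => fun J F => (Fin m → ℤ) × γ J F) (fun _ => fun J F => ptr F J)
    (fun _ => yG ((range d).image c) y₀)
    (fun _ => s) (fun i => vlQ m c d (whG G A s) sn (exN i.1.N))
    (fun _ => tgQ m c d k (whG G A s) (fun i w => T i (whG G A s w)))
    (fun i => i.1.a) (fun i => i.1.b) (fun i => i.1.lam) hcut
    (fun i => by exact_mod_cast i.2.1.lam0)
  choose θ₀ θ hθ using h3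
  refine ⟨S', h1, h2,
    fun i => if hi : Adm (whG G A s) sn d (fun i w => T i (whG G A s w)) a (1 - s) i ∧
      (i.b : ℝ) < 1 - s then θ₀ ⟨i, hi⟩ else fun _ => 0,
    fun i => if hi : Adm (whG G A s) sn d (fun i w => T i (whG G A s w)) a (1 - s) i ∧
      (i.b : ℝ) < 1 - s then θ ⟨i, hi⟩ else fun _ _ => 0, fun B hB i hi => ?_⟩
  have hi' : Adm (whG G A s) sn d (fun i w => T i (whG G A s w)) a (1 - s) i ∧
      (i.b : ℝ) < 1 - s := by
    have := hi.hb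
    exact ⟨⟨hi.ed, hi.tg, hi.lam0, hi.ha, by linarith⟩, by linarith⟩
  simp only [dif_pos hi']
  exact hθ ⟨i, hi'⟩

/-- **The rate given the near path, at almost every window**, in a subclass. -/
theorem rt_all (hsd : SdI c y₀) (h : ∀ B : ℝ, B < 1 → NiC S c d k sn T G s A B) :
    ∃ S' : PCl m, S'.Ne ∧
      (∀ (τ : ℝ) (J : ℕ) (F : Fam m J) (A : F.Ω → Prop), S'.St τ J F A → S.St τ J F A) ∧
      ∀ᵐ g : ℝ, g ∈ G → A < g → g < 1 → (∀ l < d, sn l g < 1) → ∀ Sg : ℝ, 0 ≤ Sg →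
        SlB sn d T G g Sg → TgB T g Sg → RtG S' y₀ c d k sn T G g := by
  have hb := h 0 one_pos
  by_cases hne : (G ∩ Set.Icc A 1).Nonempty
  swap
  · refine ⟨S, hb.ne, fun _ _ _ _ h => h, Filter.Eventually.of_forall fun g h1 h2 h3 => ?_⟩
    exact absurd ⟨g, h1, h2.le, h3.le⟩ hne
  obtain ⟨u₀, hu₀⟩ : ∃ u₀, u₀ = sInf (G ∩ Set.Icc A 1) := ⟨_, rfl⟩
  have hbd : BddBelow (G ∩ Set.Icc A 1) := ⟨A, fun x hx => hx.2.1⟩
  have hum : u₀ ∈ G ∩ Set.Icc A 1 := by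
    rw [hu₀]
    exact (hb.cl.inter isClosed_Icc).csInf_mem hne hbd
  obtain ⟨a, ha⟩ : ∃ a, a = u₀ - s := ⟨_, rfl⟩
  have hA : ∃ u ∈ G, A ≤ u ∧ u ≤ a + s := ⟨u₀, hum.1, hum.2.1, by rw [ha]; linarith⟩
  obtain ⟨S', g1, g2, θ₀, θ, hN⟩ := ndq_all hsd h hA
  refine ⟨S', g1, g2, ?_⟩
  have h3 : ∀ᵐ g : ℝ, ∀ B : ℚ, (B : ℝ) < 1 →
      CrE (whG G A s) sn d (fun i w => T i (whG G A s w)) a (B - s) (g - s) →
      ∀ e : ℝ, 0 < e → ∃ (φ : ℝ) (i : EIx d), GdR (whG G A s) sn d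
      (fun i w => T i (whG G A s w)) a (B - s) θ₀ θ (g - s) e φ i := by
    rw [ae_all_iff]
    intro B
    by_cases hB : (B : ℝ) < 1
    · have h' := (h B hB).sub g1 g2
      have h4 := ae_shift (ndr_ae (vchG h' hsd hA) (h'.tgc hA) (hN B hB)) s
      filter_upwards [h4] with g h5 _
      exact h5
    · exact Filter.Eventually.of_forall fun g h1 => absurd h1 hB
  have h5 : ∀ᵐ g : ℝ, g ≠ u₀ := (measure_eq_zero_iff_ae_notMem.1 (measure_singleton u₀)).mono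
    fun g hg he => hg (by rw [he]; exact Set.mem_singleton u₀)
  filter_upwards [h3, h5] with g h6 h7 hgG hAg hg1 s1 Sg hSg hsl htg
  have h8 : u₀ < g := lt_of_le_of_ne (by
    rw [hu₀]
    exact csInf_le hbd ⟨hgG, hAg.le, hg1.le⟩) (Ne.symm h7)
  obtain ⟨B, hB1, hB2⟩ := exists_rat_btwn hg1
  exact rt_box hsd ((h B hB2).sub g1 g2) hA (hN B hB2) hgG hAg hB1 s1 hSg hsl htg fun e he =>
    h6 B hB2 (cr_of hb.cl hgG hAg hg1 s1 hSg hsl (by rw [ha]; linarith) (by linarith)) e he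

/-- **One subclass** for the first `N` places of a chain. -/
theorem rt_le (hsd : SdI c y₀) (N : ℕ) (hne : S.Ne)
    (h : ∀ d < N, ∀ B : ℝ, B < 1 →
      NiC S c d (fun _ : Fin 1 => c d) sn (fun _ w => sn d w) G s A B) :
    ∃ S' : PCl m, S'.Ne ∧
      (∀ (τ : ℝ) (J : ℕ) (F : Fam m J) (A : F.Ω → Prop), S'.St τ J F A → S.St τ J F A) ∧
      ∀ᵐ g : ℝ, ∀ d < N, g ∈ G → A < g → g < 1 → (∀ l < d, sn l g < 1) → ∀ Sg : ℝ, 0 ≤ Sg →
        SlB sn d (fun (_ : Fin 1) w => sn d w) G g Sg → TgB (fun (_ : Fin 1) w => sn d w) g Sg →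
        RtG S' y₀ c d (fun _ : Fin 1 => c d) sn (fun _ w => sn d w) G g := by
  induction N with
  | zero => exact ⟨S, hne, fun _ _ _ _ h => h, Filter.Eventually.of_forall fun g d hd =>
      absurd hd (Nat.not_lt_zero d)⟩
  | succ N ih =>
    obtain ⟨S₁, a1, a2, a3⟩ := ih fun d hd => h d (by omega)
    obtain ⟨S₂, b1, b2, b3⟩ := rt_all hsd fun B hB => (h N (Nat.lt_succ_self N) B hB).sub a1 a2
    refine ⟨S₂, b1, fun τ J F A h => a2 τ J F A (b2 τ J F A h), ?_⟩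
    filter_upwards [a3, b3] with g ha hb d hd
    rcases Nat.lt_succ_iff_lt_or_eq.1 hd with h | rfl
    · exact fun e1 e2 e3 e4 Sg e5 e6 e7 => (ha d h e1 e2 e3 e4 Sg e5 e6 e7).sub b2
    · exact hb

end

/-! ### The slopes -/

/-- A derivative controls the differences in small boxes. -/
theorem der_box {f : ℝ → ℝ} {s g : ℝ} (h : HasDerivAt f s g) {η : ℝ} (hη : 0 < η) :
    ∃ ρ : ℝ, 0 < ρ ∧ ∀ t : ℝ, 0 < t → t < ρ → ∀ w v : ℝ, g - t ≤ w → w ≤ v → v ≤ g + t →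
      |f v - f w - s * (v - w)| ≤ η * t := by
  have h1 := (hasDerivAt_iff_isLittleO.1 h).def (half_pos hη)
  obtain ⟨ρ, hρ, h2⟩ := Metric.mem_nhds_iff.1 h1
  refine ⟨ρ, hρ, fun t ht htρ w v a b c => ?_⟩
  have key : ∀ x, g - t ≤ x → x ≤ g + t → |f x - f g - (x - g) * s| ≤ η / 2 * t := by
    intro x b1 b2
    have h3 : |x - g| ≤ t := by
      rw [abs_le]
      constructor <;> linarith
    have h4 : ‖f x - f g - (x - g) • s‖ ≤ η / 2 * ‖x - g‖ :=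
      h2 (by rw [Metric.mem_ball, Real.dist_eq]; linarith)
    simp only [smul_eq_mul, Real.norm_eq_abs] at h4
    exact h4.trans (mul_le_mul_of_nonneg_left h3 (by positivity))
  have k1 := abs_le.mp (key w a (by linarith))
  have k2 := abs_le.mp (key v (by linarith) c)
  rw [abs_le]
  constructor <;> linarith [k1.1, k1.2, k2.1, k2.2]

/-- Finitely many properties of small scales. -/
theorem fin_ev {D : ℕ} {Pr : ℕ → ℝ → Prop}
    (h : ∀ l < D, ∃ ρ : ℝ, 0 < ρ ∧ ∀ t : ℝ, 0 < t → t < ρ → Pr l t) :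
    ∃ ρ : ℝ, 0 < ρ ∧ ∀ t : ℝ, 0 < t → t < ρ → ∀ l < D, Pr l t := by
  induction D with
  | zero => exact ⟨1, one_pos, fun t _ _ l hl => absurd hl (Nat.not_lt_zero l)⟩
  | succ D ih =>
    obtain ⟨ρ₁, h1, h2⟩ := ih fun l hl => h l (by omega)
    obtain ⟨ρ₂, h3, h4⟩ := h D (Nat.lt_succ_self D)
    refine ⟨min ρ₁ ρ₂, lt_min h1 h3, fun t ht htρ l hl => ?_⟩
    rcases Nat.lt_succ_iff_lt_or_eq.1 hl with hl | rfl
    · exact h2 t ht (htρ.trans_le (min_le_left _ _)) l hl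
    · exact h4 t ht (htρ.trans_le (min_le_right _ _))

/-- **The levels near a point**, from the derivatives. -/
theorem slB_of {sn : ℕ → ℝ → ℝ} {d : ℕ} {T : ℝ → ℝ} {G : Set ℝ} {g s Sg : ℝ}
    (hd : ∀ l < d, HasDerivAt (fun x => sn l x) 1 g) (hT : HasDerivAt T s g) (hs : s ≤ Sg)
    (gap : ∀ η : ℝ, 0 < η → ∃ ρ : ℝ, 0 < ρ ∧ ∀ t : ℝ, 0 < t → t < ρ → ∀ x : ℝ, g - t ≤ x →
      x ≤ g + t → ∃ u ∈ G, x - η * t ≤ u ∧ u ≤ x) :
    SlB sn d (fun (_ : Fin 1) w => T w) G g Sg := by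
  intro η hη
  obtain ⟨ρ₁, h1, H1⟩ := fin_ev (D := d) (Pr := fun l t => ∀ w v : ℝ, g - t ≤ w → w ≤ v →
    v ≤ g + t → |sn l v - sn l w - 1 * (v - w)| ≤ η * t) fun l hl => der_box (hd l hl) hη
  obtain ⟨ρ₂, h2, H2⟩ := der_box hT hη
  obtain ⟨ρ₃, h3, H3⟩ := gap η hη
  refine ⟨min ρ₁ (min ρ₂ ρ₃), lt_min h1 (lt_min h2 h3), fun t ht htρ => ?_⟩
  have t1 : t < ρ₁ := htρ.trans_le (min_le_left _ _)
  have t2 : t < ρ₂ := htρ.trans_le ((min_le_right _ _).trans (min_le_left _ _))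
  have t3 : t < ρ₃ := htρ.trans_le ((min_le_right _ _).trans (min_le_right _ _))
  refine ⟨fun w _ v _ a b e l hl => ?_, fun w _ v _ a b e _ => ?_, H3 t ht t3⟩
  · have := H1 t ht t1 l hl w v a b e
    rwa [one_mul] at this
  · have e1 := (abs_le.1 (H2 t ht t2 w v a b e)).2
    have e2 : s * (v - w) ≤ Sg * (v - w) := mul_le_mul_of_nonneg_right hs (by linarith)
    linarith

/-- **The levels of the target near a point.** -/
theorem tgB_of {T : ℝ → ℝ} {g s Sg : ℝ} (hT : HasDerivAt T s g) (h1 : 1 ≤ s) (hs : s ≤ Sg) :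
    TgB (fun (_ : Fin 1) w => T w) g Sg := by
  intro η hη
  obtain ⟨ρ₂, h2, H2⟩ := der_box hT hη
  refine ⟨ρ₂, h2, fun t ht htρ _ w v a b e => ?_⟩
  have e1 := abs_le.1 (H2 t ht htρ w v a b e)
  have e2 : s * (v - w) ≤ Sg * (v - w) := mul_le_mul_of_nonneg_right hs (by linarith)
  have e3 : 1 * (v - w) ≤ s * (v - w) := mul_le_mul_of_nonneg_right h1 (by linarith)
  simp only
  constructor <;> linarith [e1.1, e1.2]

/-- The slope of a level is at least one. -/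
theorem slope_ge {L : ℝ → ℝ → ℝ} (hL : Pool.LEV.Law L) {g s : ℝ} (g0 : 0 < g) (g1 : g < 1)
    (h1 : L g g < 1) (hd : HasDerivAt (fun x => L x x) s g) : 1 ≤ s := by
  by_contra hlt
  rw [not_le] at hlt
  obtain ⟨ρ, hρ, H⟩ := der_box hd (η := (1 - s) / 2) (by linarith)
  obtain ⟨t, ht, htρ, htg⟩ : ∃ t : ℝ, 0 < t ∧ t < ρ ∧ t < g :=
    ⟨min ρ g / 2, by positivity, by
      have := min_le_left ρ g
      linarith, by
      have := min_le_right ρ g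
      linarith⟩
  have h2 := (abs_le.1 (H t ht htρ (g - t) g le_rfl (by linarith) (by linarith))).2
  have h3 := law_gap hL (v := g - t) (o := g) (by linarith) (by linarith) g1.le h1
  nlinarith

/-! ### The property -/

/-- **The rate of the velocity of the place** `p.1` over the places below it, in the boxes around the
window `x`; the error `p.2`; scales smaller than `1 / (k₀ + 1)`. -/
structure VrQ {n : ℕ} (p : ℕ × ℚ) (k₀ : ℕ) (S : PCl n)
    (P : List (Fin n) × Fin n → ℝ → ℝ → ℝ) (θ : ℝ) (c : ℕ → Fin n) (Pt : ℝ → ℝ → ℝ)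
    (r : ℝ → ℝ) (L T : ℕ → ℝ → ℝ → ℝ) (κ : ℕ → Kg) (G : Set ℝ) (x : ℝ) : Prop where
  /-- The numbers of the records exist. -/
  rn : ∃ η : ℚ → ℝ, ∀ w : ℚ, RNum S (fun J F => ptr F J) (vg (w : ℝ)) (η w)
  /-- The chains at the windows of `G`. -/
  ch : ∀ d < n, ChG S c d (fun l w => L l w w) G
  /-- The rate `φ`: given the near path over the charts of `b` and the record at `w`, the velocity to
  the natural digits of `o` has `φ (o - w)` bits, up to `p.2 ρ`. -/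
  rt : p.1 + 1 < n → (∀ l < p.1, κ l = .one) → 0 < p.2 → ∃ φ : ℝ, 0 ≤ φ ∧ ∀ ρ : ℝ, 0 < ρ →
    ((k₀ : ℝ) + 1) * ρ < 1 → ∀ b ∈ G, ∀ w o : ℝ, x - ρ ≤ b → b ≤ w → w ≤ o → o ≤ x + ρ →
    ∀ nH nV lv : ℕ → ℝ, NrW (fun l w => L l w w) p.1 (fun (_ : Fin 1) w => L p.1 w w) nH nV lv b o
      (p.2 * ρ) (1 / ((k₀ : ℝ) + 1)) →
      RtW S (fun (_ : ℕ) (F : Fam n _) => F.T) c p.1 (fun _ : Fin 1 => c p.1)
        (fun l w => L l w w) (fun (_ : Fin 1) w => L p.1 w w) nH nV b w o (φ * (o - w)) (p.2 * ρ)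

/-- The property passes to subclasses. -/
theorem VrQ.sub {n : ℕ} {p : ℕ × ℚ} {k₀ : ℕ} {S S' : PCl n}
    {P : List (Fin n) × Fin n → ℝ → ℝ → ℝ} {θ : ℝ} {c : ℕ → Fin n} {Pt : ℝ → ℝ → ℝ}
    {r : ℝ → ℝ} {L T : ℕ → ℝ → ℝ → ℝ} {κ : ℕ → Kg} {G : Set ℝ} {x : ℝ}
    (hs : ∀ (τ : ℝ) (J : ℕ) (F : Fam n J) (A : F.Ω → Prop), S'.St τ J F A → S.St τ J F A)
    (h : VrQ p k₀ S P θ c Pt r L T κ G x) : VrQ p k₀ S' P θ c Pt r L T κ G x where
  rn := by
    obtain ⟨η, hη⟩ := h.rn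
    exact ⟨η, fun w => (hη w).sub hs⟩
  ch := fun d hd => (h.ch d hd).sub hs
  rt := fun e1 e2 e3 => by
    obtain ⟨φ, hφ, H⟩ := h.rt e1 e2 e3
    exact ⟨φ, hφ, fun ρ h1 h2 b hb w o a1 a2 a3 a4 nH nV lv hN =>
      (H ρ h1 h2 b hb w o a1 a2 a3 a4 nH nV lv hN).sub hs⟩

theorem her_vr (n : ℕ) : HerQ (VrQ : PropG n (ℕ × ℚ)) :=
  fun _ _ _ _ _ _ _ _ _ _ _ _ _ _ hs h => h.sub hs

theorem nrW_le {sn : ℕ → ℝ → ℝ} {d n : ℕ} {T : Fin n → ℝ → ℝ} {nH nV lv : ℕ → ℝ}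
    {b o τ κ₀ κ₁ : ℝ} (h : NrW sn d T nH nV lv b o τ κ₀) (hκ : κ₀ ≤ κ₁) :
    NrW sn d T nH nV lv b o τ κ₁ where
  lv0 := h.lv0
  h := h.h
  v := h.v
  s := h.s
  sh := h.sh
  sv := h.sv
  t := h.t
  kh := fun l hl => by linarith [h.kh l hl]
  kv := fun l hl => by linarith [h.kv l hl]

/-- **The property `VrQ` holds at almost every window**, in a subclass. -/
theorem aePG_vr (n : ℕ) : AePG n (VrQ : PropG n (ℕ × ℚ)) := by
  intro hn S P r P' Λ PB PQ H hTop hF o G hG hGs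
  obtain ⟨al, g₀, s, d', e', K₁, N₁, hal, hg₀, hC⟩ := H.cl
  have htm : TmC S 6 := Pool.GEN.N83.clx_tmc hC
  have hM : Bas S (fun J F A => (cnt F.p (ptr F J) A : ℝ) ≤ Real.exp ((4 * n + 1) * J)) :=
    Bas.mono 0 hC.cnt fun J _ F A h => h J le_rfl
  have hW : ∀ d < n, ChG S (cc hn o.1.1) d (fun l w => LvL hn P P' o l w w) G :=
    fun d hd => gs_chG H.toPk hTop hF hGs (by omega)
  obtain ⟨S₁, a1, a2, η, hη⟩ := rnum_ptr hC.ne hC.pos hM
  have hnic : ∀ d < n - 1, ∀ B : ℝ, B < 1 → NiC S₁ (cc hn o.1.1) d (fun _ : Fin 1 => cc hn o.1.1 d)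
      (fun l w => LvL hn P P' o l w w) (fun _ w => LvL hn P P' o d w w) G 0 0 B := by
    intro d hd B hB
    have hmon : ∀ l ≤ n - 1, ∀ w ∈ G, ∀ v ∈ G, w ≤ v → LvL hn P P' o l w w - w ≤
        LvL hn P P' o l v v - v := fun l hl w hw v hv hwv =>
      law_gap (H.lawL o l) (hGs hw).1.1.1.le hwv (hGs hv).1.1.2.1.le
        (lev_lt' H.toPk hTop hF (hGs hv) hl)
    exact
    { ne := a1
      pos := fun τ J F A h => hC.pos τ J F A (a2 τ J F A h)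
      tm := ⟨6, fun τ J F A hτ h => htm τ J F A hτ (a2 τ J F A h)⟩
      rn := fun w _ _ => ⟨η w, by
        rw [add_zero]
        exact hη w⟩
      cl := hG
      ch := (hW d (by omega)).sub a2
      mn := fun l hl w hw v hv hwv => by
        have := hmon l (by omega) w hw v hv hwv
        linarith
      att := fun _ w hw => by
        obtain ⟨u₁, rd, h1, h2⟩ := (((hW (d + 1) (by omega)).sub a2).ch w hw)
        exact ⟨rd d, h1 d (by omega), h2.att d (Nat.zero_le _) (by omega)⟩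
      mT := fun _ w hw v hv hwv => hmon d (by omega) w hw v hv hwv
      B1 := hB }
  obtain ⟨S₂, b1, b2, b3⟩ := rt_le (sdI_T (cc hn o.1.1)) (n - 1) a1 hnic
  refine ⟨S₂, b1, fun τ J F A h => a2 τ J F A (b2 τ J F A h), ?_⟩
  filter_upwards [b3, H.toPkT.dia_all H.pble hTop hF, gap_ae hG] with g h1 hdia hgap hg κ hκ p
  have ho := hGs hg
  have g0 : 0 < g := ho.1.1.1
  have g1 : g < 1 := ho.1.1.2.1
  by_cases hall : p.1 + 1 < n ∧ (∀ l < p.1, κ l = .one) ∧ 0 < p.2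
  swap
  · exact ⟨0, ⟨η, fun w => (hη w).sub b2⟩, fun d hd => ((hW d hd).sub a2).sub b2,
      fun e1 e2 e3 => absurd ⟨e1, e2, e3⟩ hall⟩
  obtain ⟨e1, e2, e3⟩ := hall
  have hdl : ∀ l < p.1, HasDerivAt (fun x => LvL hn P P' o l x x) 1 g := by
    intro l hl
    have h2 := hκ l (by omega)
    rw [e2 l hl] at h2
    have h3 : deriv (fun a => LvL hn P P' o l a a) g = 1 := h2
    have h4 := (hdia o ho l (by omega)).1.hasDerivAt
    rw [h3] at h4
    exact h4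
  have hdT := (hdia o ho p.1 (by omega)).1.hasDerivAt
  have hs1 := slope_ge (H.lawL o p.1) g0 g1 (lev_lt' H.toPk hTop hF ho (by omega)) hdT
  have hR := h1 p.1 (by omega) hg g0 g1
    (fun l hl => lev_lt' H.toPk hTop hF ho (by omega)) _ (by linarith)
    (slB_of hdl hdT le_rfl (hgap hg)) (tgB_of hdT hs1 le_rfl)
  obtain ⟨φ, hφ, κ₀, hκ₀, r₀, hr₀, H⟩ := hR p.2 (by exact_mod_cast e3)
  obtain ⟨k, hk⟩ := exists_nat_one_div_lt (lt_min hκ₀ hr₀)
  refine ⟨k, ⟨η, fun w => (hη w).sub b2⟩, fun d hd => ((hW d hd).sub a2).sub b2,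
    fun _ _ _ => ⟨φ, hφ, fun ρ hρ hkρ b hb w o a1 a2 a3 a4 nH nV lv hN => ?_⟩⟩
  have hk0 : (0 : ℝ) < (k : ℝ) + 1 := by positivity
  have hρr : ρ < r₀ := by
    have h2 : ρ < 1 / ((k : ℝ) + 1) := by
      rw [lt_div_iff₀ hk0]
      linarith
    exact h2.trans (hk.trans_le (min_le_right _ _))
  exact H ρ hρ hρr b hb w o a1 a2 a3 a4 nH nV lv (nrW_le hN (hk.le.trans (min_le_left _ _)))

end Pool.RV28
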