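import Pool.Agent.H28.RV.Real
import Pool.Agent.H30.LP.Nia

/-!
# The rate of the velocities of the targets given the near path, almost everywhere

`RtG`: in small boxes around `g`, given the near path over the charts of `b` and the record at `x`,
the velocities of the targets to the natural digits of `o` have `φ (o - x)` bits. `rt_box`: at a point
with good numbers. `rt_ae`: in a subclass, at almost every window.
-/

set_option autoImplicit false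

namespace Pool.RV28

open Finset Real MvPolynomial MeasureTheory
open Pool.Agent.H49.Ent Pool.Agent.H32.Dense Pool.STK Pool.KA Pool.KSAT Pool.K2S Pool.PB Pool.S6C
  Pool.GEN Pool.RCD Pool.LA91 Pool.LP30
open Pool.OWN83 (TwoRelS TRelS ae_shift)
open Pool.OWN68 (cl2_vg)
open Pool.AVG96 (fl fl_mem fl_mono le_fl whG)

variable {m : ℕ} {S : PCl m} {γ : ∀ J : ℕ, Fam m J → Type}
  {y₀ : ∀ (J : ℕ) (F : Fam m J), F.Ω → γ J F} {c : ℕ → Fin m} {d : ℕ} {s a A B g Sg : ℝ}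
  {sn : ℕ → ℝ → ℝ} {G : Set ℝ} {n : ℕ} {k : Fin n → Fin m} {T : Fin n → ℝ → ℝ}

/-- **The rate of the velocities of the targets** given the near path, in small boxes around `g`. -/
def RtG (S : PCl m) (y₀ : ∀ (J : ℕ) (F : Fam m J), F.Ω → γ J F) (c : ℕ → Fin m) (d : ℕ) {n : ℕ}
    (k : Fin n → Fin m) (sn : ℕ → ℝ → ℝ) (T : Fin n → ℝ → ℝ) (G : Set ℝ) (g : ℝ) : Prop :=
  ∀ e : ℝ, 0 < e → ∃ φ : ℝ, 0 ≤ φ ∧ ∃ κ₀ : ℝ, 0 < κ₀ ∧ ∃ r₀ : ℝ, 0 < r₀ ∧
    ∀ r : ℝ, 0 < r → r < r₀ →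
    ∀ b ∈ G, ∀ x o : ℝ, g - r ≤ b → b ≤ x → x ≤ o → o ≤ g + r →
    ∀ nH nV lv : ℕ → ℝ, NrW sn d T nH nV lv b o (e * r) κ₀ →
      RtW S y₀ c d k sn T nH nV b x o (φ * (o - x)) (e * r)

theorem RtG.sub {S' : PCl m} (hs : ∀ (τ : ℝ) (J : ℕ) (F : Fam m J) (A : F.Ω → Prop),
    S'.St τ J F A → S.St τ J F A) (h : RtG S y₀ c d k sn T G g) : RtG S' y₀ c d k sn T G g := by
  intro e he
  obtain ⟨φ, hφ, κ₀, hκ, r₀, hr, H⟩ := h e he
  exact ⟨φ, hφ, κ₀, hκ, r₀, hr, fun r h1 h2 b hb x o a1 a2 a3 a4 nH nV lv hN =>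
    (H r h1 h2 b hb x o a1 a2 a3 a4 nH nV lv hN).sub hs⟩

/-- The class at the indices. -/
theorem vchG {B : ℝ} (h : NiC S c d k sn T G s A B) (hsd : SdI c y₀) {a : ℝ}
    (hA : ∃ u ∈ G, A ≤ u ∧ u ≤ a + s) :
    VCh S (fun J F => ptr F J) (yG ((range d).image c) y₀) c d s a (B - s) (whG G A s) sn G := by
  have h1 := h.vch hA
  exact
  { ne := h1.ne
    pos := h1.pos
    tm := h1.tm
    rn := h1.rn
    ch := h1.ch
    wg := h1.wg
    wm := h1.wm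
    mn := h1.mn
    pt := h1.pt
    kn := kn_yG hsd.kn
    kx := knP_yG c d
    b1 := h1.b1 }

/-- The constants of a box. -/
theorem box_D (d n : ℕ) {Sg rt E : ℝ} (hSg : 0 ≤ Sg) (hrt : 0 ≤ rt) (hE : 0 ≤ E) :
    (Sg + 1) * E ≤ (((d : ℝ) + 1) ^ 2 * (n + 1) * (Sg + 1) + rt) * E ∧
    (d : ℝ) * E ≤ (((d : ℝ) + 1) ^ 2 * (n + 1) * (Sg + 1) + rt) * E ∧
    (n : ℝ) * ((Sg + 1) * E) ≤ (((d : ℝ) + 1) ^ 2 * (n + 1) * (Sg + 1) + rt) * E ∧
    rt * E ≤ (((d : ℝ) + 1) ^ 2 * (n + 1) * (Sg + 1) + rt) * E ∧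
    ((d : ℝ) + 1) ^ 2 * E ≤ (((d : ℝ) + 1) ^ 2 * (n + 1) * (Sg + 1) + rt) * E ∧
    (n : ℝ) * (2 * (Sg * E) + E) ≤ 2 * (n * ((Sg + 1) * E)) := by
  have hd0 : (0 : ℝ) ≤ d := Nat.cast_nonneg d
  have hn0 : (0 : ℝ) ≤ n := Nat.cast_nonneg n
  have a1 : (1 : ℝ) ≤ ((d : ℝ) + 1) ^ 2 := by nlinarith
  have a2 : (d : ℝ) ≤ ((d : ℝ) + 1) ^ 2 := by nlinarith
  have a3 : (1 : ℝ) ≤ n + 1 := by linarith
  have a4 : (1 : ℝ) ≤ Sg + 1 := by linarith
  have a5 : ((d : ℝ) + 1) ^ 2 ≤ ((d : ℝ) + 1) ^ 2 * (n + 1) :=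
    le_mul_of_one_le_right (by positivity) a3
  have a6 : ((d : ℝ) + 1) ^ 2 * (n + 1) ≤ ((d : ℝ) + 1) ^ 2 * (n + 1) * (Sg + 1) :=
    le_mul_of_one_le_right (by positivity) a4
  have a7 : (n : ℝ) + 1 ≤ ((d : ℝ) + 1) ^ 2 * (n + 1) :=
    le_mul_of_one_le_left (by positivity) a1
  have a8 : ((n : ℝ) + 1) * (Sg + 1) ≤ ((d : ℝ) + 1) ^ 2 * (n + 1) * (Sg + 1) :=
    mul_le_mul_of_nonneg_right a7 (by linarith)
  have a9 : (Sg + 1) ≤ ((n : ℝ) + 1) * (Sg + 1) := le_mul_of_one_le_left (by linarith) a3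
  refine ⟨mul_le_mul_of_nonneg_right (by linarith) hE, mul_le_mul_of_nonneg_right (by linarith) hE,
    ?_, mul_le_mul_of_nonneg_right (by linarith) hE, mul_le_mul_of_nonneg_right (by linarith) hE,
    ?_⟩
  · rw [← mul_assoc]
    refine mul_le_mul_of_nonneg_right ?_ hE
    have h1 : (n : ℝ) * (Sg + 1) ≤ (n + 1) * (Sg + 1) :=
      mul_le_mul_of_nonneg_right (by linarith) (by linarith)
    linarith
  · have h6 : 0 ≤ (n : ℝ) * E := by positivity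
    have e1 : 2 * ((n : ℝ) * ((Sg + 1) * E)) = n * (2 * (Sg * E) + E) + n * E := by ring
    linarith

/-- **The rate of the velocities of the targets**, at a point with good numbers. -/
theorem rt_box (hsd : SdI c y₀) (h : NiC S c d k sn T G s A B) (hA : ∃ u ∈ G, A ≤ u ∧ u ≤ a + s)
    {θ₀ : EIx d → ℚ → ℝ} {θ : EIx d → ℚ → ℚ → ℝ}
    (hN : NdN S (fun J F => ptr F J) (yG ((range d).image c) y₀) c d s a (B - s) (whG G A s) sn k
      (fun i w => T i (whG G A s w)) θ₀ θ)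
    (hgG : g ∈ G) (hAg : A < g) (hgB : g < B) (s1 : ∀ l < d, sn l g < 1) (hSg : 0 ≤ Sg)
    (hsl : SlB sn d T G g Sg) (htg : TgB T g Sg)
    (hgd : ∀ e : ℝ, 0 < e → ∃ (φ : ℝ) (i : EIx d), GdR (whG G A s) sn d
      (fun i w => T i (whG G A s w)) a (B - s) θ₀ θ (g - s) e φ i) :
    RtG S y₀ c d k sn T G g := by
  intro e he
  have hl2 : 0 < Real.log 2 := Real.log_pos one_lt_two
  have hl21 : Real.log 2 ≤ 1 := by
    have := Real.log_two_lt_d9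
    linarith
  have hd0 : (0 : ℝ) ≤ d := Nat.cast_nonneg d
  have hn0 : (0 : ℝ) ≤ n := Nat.cast_nonneg n
  have hB1 := h.B1
  obtain ⟨rt, i, hgi⟩ := hgd (e / 16) (by positivity)
  have hadm := hgi.adm
  have ia := hgi.ia
  have ib := hgi.ib
  have hrt := hgi.φ0
  obtain ⟨r₁, hr₁, hgr⟩ := hgi.r
  -- the rooms
  obtain ⟨R₁, hR₁, hR₁s⟩ := fin_lb (D := d) (f := fun l => 1 - sn l g) fun l hl => by
    linarith [s1 l hl]
  obtain ⟨Lv, hLv, hLvl⟩ := fin_lb (D := d) (f := exN i.lv) hadm.ed.lv0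
  obtain ⟨R, hR, hRg, hRs⟩ : ∃ R : ℝ, 0 < R ∧ 32 * R ≤ 1 - g ∧ 32 * R ≤ R₁ :=
    ⟨min ((1 - g) / 32) (R₁ / 32), lt_min (by linarith) (by positivity), by
      have := min_le_left ((1 - g) / 32) (R₁ / 32)
      linarith, by
      have := min_le_right ((1 - g) / 32) (R₁ / 32)
      linarith⟩
  obtain ⟨κ₀, hκ₀, hκR, hκL⟩ : ∃ κ₀ : ℝ, 0 < κ₀ ∧ κ₀ ≤ R ∧ κ₀ ≤ Lv / 2 :=
    ⟨min R (Lv / 2), lt_min hR (by positivity), min_le_left _ _, min_le_right _ _⟩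
  -- the error of the levels
  obtain ⟨D, hD⟩ : ∃ D : ℝ, D = ((d : ℝ) + 1) ^ 2 * (n + 1) * (Sg + 1) + rt := ⟨_, rfl⟩
  have hD0 : 0 < D := by rw [hD]; positivity
  obtain ⟨η, hη, hη1, hη2⟩ : ∃ η : ℝ, 0 < η ∧ 200 * η ≤ 1 ∧ 4000 * (D * η) ≤ e := by
    refine ⟨min (1 / 200) (e / (4000 * D)), by positivity, ?_, ?_⟩
    · have := min_le_left (1 / 200) (e / (4000 * D))
      linarith
    · have := min_le_right (1 / 200) (e / (4000 * D))
      have h2 := mul_le_mul_of_nonneg_left this (show (0 : ℝ) ≤ 4000 * D by positivity)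
      rw [mul_div_cancel₀ _ (by positivity)] at h2
      linarith
  obtain ⟨ρ₁, hρ₁, H1⟩ := hsl η hη
  obtain ⟨ρ₂, hρ₂, H2⟩ := htg η hη
  have lam0 : (0 : ℝ) < i.lam := by exact_mod_cast hadm.lam0
  obtain ⟨r₀, hr₀, k1, k2, k3, k4, k5, k6, k7, k8, k9, k10, k11⟩ : ∃ r₀ : ℝ, 0 < r₀ ∧ 2 * r₀ ≤ ρ₁ ∧
      2 * r₀ ≤ ρ₂ ∧ 2 * r₀ ≤ r₁ ∧ 8 * r₀ ≤ g - A ∧ 8 * r₀ ≤ B - g ∧ 8 * r₀ ≤ i.lam ∧
      8 * r₀ ≤ g - s - i.a ∧ 8 * r₀ ≤ i.b - (g - s) ∧ 8 * ((Sg + 1) * r₀) ≤ R ∧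
      8 * (e * r₀) ≤ R ∧ 8 * r₀ ≤ Lv := by
    obtain ⟨r₀, h1, h2⟩ := list_lb [ρ₁ / 2, ρ₂ / 2, r₁ / 2, (g - A) / 8, (B - g) / 8, i.lam / 8,
      (g - s - i.a) / 8, (i.b - (g - s)) / 8, R / (8 * (Sg + 1)), R / (8 * e), Lv / 8] (by
        have x1 : 0 < g - A := by linarith
        have x2 : 0 < B - g := by linarith
        have x3 : 0 < g - s - i.a := by linarith
        have x4 : 0 < i.b - (g - s) := by linarith
        simp only [List.mem_cons, List.not_mem_nil, or_false, forall_eq_or_imp, forall_eq]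
        refine ⟨?_, ?_, ?_, ?_, ?_, ?_, ?_, ?_, ?_, ?_, ?_⟩ <;> positivity)
    simp only [List.mem_cons, List.not_mem_nil, or_false, forall_eq_or_imp, forall_eq] at h2
    obtain ⟨a1, a2, a3, a4, a5, a6, a7, a8, a9, a10, a11⟩ := h2
    refine ⟨r₀, h1, by linarith, by linarith, by linarith, by linarith, by linarith, by linarith,
      by linarith, by linarith, ?_, ?_, by linarith⟩
    · rw [le_div_iff₀ (by positivity)] at a9
      linarith
    · rw [le_div_iff₀ (by positivity)] at a10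
      linarith
  refine ⟨rt, hrt, κ₀, hκ₀, r₀, hr₀, fun r hr hrr b hb x o a1 a2 a4 a5 nH nV lv hNr => ?_⟩
  have HB := H1 (2 * r) (by positivity) (by linarith)
  have HT := H2 (2 * r) (by positivity) (by linarith)
  obtain ⟨X, hX⟩ : ∃ X : ℝ, X = e * r := ⟨_, rfl⟩
  obtain ⟨E, hE⟩ : ∃ E : ℝ, E = η * (2 * r) := ⟨_, rfl⟩
  rw [← hX] at hNr ⊢
  rw [← hE] at HT
  have hX0 : 0 < X := by rw [hX]; positivity
  have hE0 : 0 < E := by rw [hE]; positivity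
  have hEr : 100 * E ≤ r := by
    have h1 := mul_le_mul_of_nonneg_right hη1 hr.le
    rw [hE]
    linarith only [h1]
  have hDE : 2000 * (D * E) ≤ X := by
    have h1 := mul_le_mul_of_nonneg_right hη2 hr.le
    have h2 : 2000 * (D * E) = 4000 * (D * η) * r := by rw [hE]; ring
    rw [h2, hX]
    exact h1
  have hXR : 8 * X ≤ R := by
    have h1 : e * r ≤ e * r₀ := mul_le_mul_of_nonneg_left hrr.le he.le
    rw [hX]
    linarith
  have hSr : 8 * ((Sg + 1) * r) ≤ R := by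
    have h1 : (Sg + 1) * r ≤ (Sg + 1) * r₀ := mul_le_mul_of_nonneg_left hrr.le (by linarith)
    linarith
  have hrR : 8 * r ≤ R := by
    have h1 : 0 ≤ Sg * r := mul_nonneg hSg hr.le
    linarith only [h1, hSr]
  obtain ⟨φ, hφe⟩ : ∃ φ : ℝ, φ = X / (64 * ((d : ℝ) + 1) ^ 2) := ⟨_, rfl⟩
  have hφ : 64 * (((d : ℝ) + 1) ^ 2 * φ) = X := by
    rw [hφe]
    field_simp
  have hφ0 : 0 < φ := by rw [hφe]; positivity
  have hdφ : 20 * ((d : ℝ) + 1) * φ ≤ X := by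
    have h0 : (0 : ℝ) ≤ ((d : ℝ) + 1) * d * φ := by positivity
    have h1 : ((d : ℝ) + 1) ^ 2 * φ = ((d : ℝ) + 1) * φ + ((d : ℝ) + 1) * d * φ := by ring
    have h2 : 0 ≤ ((d : ℝ) + 1) * φ := by positivity
    linarith only [h0, h1, h2, hφ]
  obtain ⟨hD1, hD2, hD3, hD4, hD5, h5⟩ := box_D d n hSg hrt hE0.le
  rw [← hD] at hD1 hD2 hD3 hD4 hD5
  obtain ⟨w, v, oq, w1, w2, v1, v2, o3, o5, wv, vo, ⟨cw, cw1, cw2⟩, ⟨cv, cv1, cv2⟩,
    ⟨co, co1, co2⟩, cwv, cvo, x', hx', x1', x2'⟩ := idx_ex (s := s) (A := A) (x := x) (y := x)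
      (o := o) h.cl HB hr (by linarith) hE hE0 hEr (by linarith) (by linarith) le_rfl a4 a5
  have hbox := mk_box (κ₀ := κ₀) (φ := φ) (X := X) (b := b) (x := x) (y := x) (o := o)
    (wc := whG G A s w) (vc := whG G A s v) (oc := whG G A s oq) h.mn HB HT hr hE hE0 hEr hX0 hφ0
    hSg hgG hb a1 a2 le_rfl a4 a5 cw co (by linarith) (by linarith) (by linarith) (by linarith)
    (by linarith) (by linarith) cwv cvo (by linarith) (by linarith) hSr hκR hRg hRs hR₁s hdφ hNr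
  obtain ⟨hlin, hdrop⟩ := hgr (2 * r) (by positivity) (by linarith)
  obtain ⟨C₀, htm⟩ := h.tm
  have hEφ : E ≤ φ := by
    have h4 : ((d : ℝ) + 1) ^ 2 * E ≤ ((d : ℝ) + 1) ^ 2 * φ := by
      have h6 : 0 ≤ D * E := by positivity
      linarith only [hD5, hDE, hφ, h6]
    exact le_of_mul_le_mul_left h4 (by positivity)
  have ww : (i.a : ℝ) < w := by linarith
  have ob : (oq : ℝ) < i.b := by linarith
  have hx1 : ∀ l < d, sn l x' - sn l (whG G A s oq) ≤ 3 * E := by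
    intro l hl
    have h1 := (abs_le.1 (HB.sl _ co _ hx' (by linarith) (by linarith) (by linarith) l hl)).2
    rw [← hE] at h1
    linarith
  have hsum := sum_lo (sn := sn) (d := d) hE0.le hφ0.le hx1
  have hNV : ∀ l < d, nV l ≤ exN i.N l := by
    intro l hl
    have h1 := hadm.ed.nat w ww (by linarith) l hl
    have h2 := hNr.kv l hl
    have h3 := hbox.fl l hl _ (show whG G A s w ∈ ({b, whG G A s w, whG G A s oq} : Set ℝ) by simp)
      b (by simp)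
    have h4 := hLvl l hl
    have h5 := hadm.ed.σ0
    linarith
  have hgap : ∀ x, whG G A s w ≤ x → x ≤ whG G A s oq → ∃ v' ∈ G, |v' - x| ≤ φ := by
    intro p p1 p2
    obtain ⟨u, hu, u1, u2⟩ := HB.gap p (by linarith) (by linarith)
    rw [← hE] at u1
    refine ⟨u, hu, ?_⟩
    rw [abs_le]
    constructor <;> linarith
  have hfl : ∀ l < d, ∀ p ∈ G, whG G A s w ≤ p → p ≤ whG G A s oq →
      |(sn l p - p) - (sn l (whG G A s oq) - whG G A s oq)| ≤ 2 * φ := by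
    intro l hl p hp p1 p2
    have h1 := abs_le.1 (HB.sl p hp _ co (by linarith) p2 (by linarith) l hl)
    rw [← hE] at h1
    rw [abs_le]
    constructor <;> linarith [h1.1, h1.2]
  have hU := up_fix hsd ((vchG h hsd hA).cut hadm.ha hadm.hb) lam0 hadm.ed
    ((h.tgc hA).cut hadm.ha hadm.hb) (hN i hadm) (w := w) (o := oq) ww (wv.trans vo) ob
    (by linarith) (hbox.nrD rfl rfl) (hbox.tgN rfl rfl) hNV hgap hfl hx' x1'
  have hL := lo_fix (y₀ := y₀) ((vchG h hsd hA).cut hadm.ha hadm.hb) lam0 hadm.ed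
    ((h.tgc hA).cut hadm.ha hadm.hb) hadm.tg (hN i hadm) (w := w) (v := v) (o := oq) ww wv vo ob
    (by linarith) (hbox.nrD rfl rfl) hNV
  have g1 := abs_le.1 (hlin w oq (by linarith) (wv.trans vo) (by linarith))
  have g2 := abs_le.1 (hlin v oq (by linarith) vo (by linarith))
  have g3 := hdrop w oq (by linarith) (wv.trans vo) (by linarith)
  have g4 : e / 16 * (2 * r) = X / 8 := by rw [hX]; ring
  rw [g4] at g1 g2 g3
  have g5 : rt * (oq - w) ≤ rt * (o - x) + 3 * (rt * E) := by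
    have h1 : rt * (oq - w) ≤ rt * ((o - x) + 3 * E) :=
      mul_le_mul_of_nonneg_left (by linarith) hrt
    linarith
  have g6 : rt * (o - x) - rt * E ≤ rt * (oq - v) := by
    have h1 : rt * ((o - x) - E) ≤ rt * (oq - v) :=
      mul_le_mul_of_nonneg_left (by linarith) hrt
    linarith
  have hfin := rt_real (φ := φ) (R := R) (κ₀ := κ₀) (X := X) (Sg := Sg) (E := E) hsd htm h.pos
      h.ch h.att hbox (zw := (w : ℝ) + s) (zv := (v : ℝ) + s) (ρ := rt * (o - x)) (κ := X / 2)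
      (by linarith) (by linarith)
      (by linarith) (h.rn w (by linarith) (by linarith)) (h.rn v (by linarith) (by linarith)) hU hL
      (by linarith) (by linarith) (ε := X / 4) (by linarith)
  obtain ⟨κ₁, hκ₁, e₀, he₀, H⟩ := hfin
  refine ⟨κ₁, hκ₁, e₀, he₀, fun K => Bas.mono 0 (H K) ?_⟩
  intro J _ F A' H V z hz u pa hu hpa
  exact (H V z hz u pa hu hpa).trans (mul_le_mul_of_nonneg_right (by linarith)
    (Nat.cast_nonneg J))

/-- **The rate of the velocities of the targets given the near path, at almost every window**, in a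
subclass. -/
theorem rt_ae (hsd : SdI c y₀) (h : NiC S c d k sn T G s A B) :
    ∃ S' : PCl m, S'.Ne ∧
      (∀ (τ : ℝ) (J : ℕ) (F : Fam m J) (A : F.Ω → Prop), S'.St τ J F A → S.St τ J F A) ∧
      ∀ᵐ g : ℝ, g ∈ G → A < g → g < B → (∀ l < d, sn l g < 1) → ∀ Sg : ℝ, 0 ≤ Sg →
        SlB sn d T G g Sg → TgB T g Sg → RtG S' y₀ c d k sn T G g := by
  by_cases hne : (G ∩ Set.Icc A B).Nonempty
  swap
  · refine ⟨S, h.ne, fun _ _ _ _ h => h, Filter.Eventually.of_forall fun g h1 h2 h3 => ?_⟩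
    exact absurd ⟨g, h1, h2.le, h3.le⟩ hne
  obtain ⟨u₀, hu₀⟩ : ∃ u₀, u₀ = sInf (G ∩ Set.Icc A B) := ⟨_, rfl⟩
  have hbd : BddBelow (G ∩ Set.Icc A B) := ⟨A, fun x hx => hx.2.1⟩
  have hum : u₀ ∈ G ∩ Set.Icc A B := by
    rw [hu₀]
    exact (h.cl.inter isClosed_Icc).csInf_mem hne hbd
  obtain ⟨a, ha⟩ : ∃ a, a = u₀ - s := ⟨_, rfl⟩
  have hA : ∃ u ∈ G, A ≤ u ∧ u ≤ a + s := ⟨u₀, hum.1, hum.2.1, by rw [ha]; linarith⟩
  obtain ⟨S', g1, g2, θ₀, θ, hN⟩ := ndq_cls (vchG h hsd hA) (h.tgc hA)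
  refine ⟨S', g1, g2, ?_⟩
  have h' := h.sub g1 g2
  have h3 := ndr_ae (vchG h' hsd hA) (h'.tgc hA) hN
  have h4 := ae_shift h3 s
  have h5 : ∀ᵐ g : ℝ, g ≠ u₀ := (measure_eq_zero_iff_ae_notMem.1 (measure_singleton u₀)).mono
    fun g hg he => hg (by rw [he]; exact Set.mem_singleton u₀)
  filter_upwards [h4, h5] with g h6 h7 hgG hAg hgB s1 Sg hSg hsl htg
  have h8 : u₀ < g := lt_of_le_of_ne (by
    rw [hu₀]
    exact csInf_le hbd ⟨hgG, hAg.le, hgB.le⟩) (Ne.symm h7)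
  exact rt_box hsd h' hA hN hgG hAg hgB s1 hSg hsl htg fun e he =>
    h6 (cr_of h.cl hgG hAg (hgB.trans h.B1) s1 hSg hsl (by rw [ha]; linarith) (by linarith)) e he

end Pool.RV28
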