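import Pool.Agent.H28.RV.Real
import Pool.Agent.H19.FLN.F1a

/-!
# The first jet and the alive velocity from the rate

`dgl`: the excesses of the digits of a near path. `nrW_dgl`: they are digits of a near path in the
sense of `NrW`. `rt_f1`: from `RtW` with a small rate to `F1` over the near path with `kf` digits.
`rt_alv`: from `RtW` with a large rate to `AlvQ` over the near path with `kf` digits.
-/

set_option autoImplicit false

namespace Pool.RV28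

open Finset Real MvPolynomial
open Pool.Agent.H49.Ent Pool.Agent.H32.Dense Pool.STK Pool.KA Pool.KSAT Pool.K2S Pool.PB Pool.S6C
  Pool.GEN Pool.RCD Pool.LA91 Pool.LP30
open Pool.OWN68 (cl2_vg F1)
open Pool.FLN19 (AlvQ)

/-- **The excesses** of the digits of a near path: `4 D` between two places. -/
noncomputable def dgl (A D : ℝ) (r l : ℕ) : ℝ := A + 4 * (D * ((r : ℝ) - l))

theorem dgl_lt {A D : ℝ} (hD : 0 < D) {r l : ℕ} (hl : l < r) : A + 4 * D ≤ dgl A D r l := by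
  have h1 : (l : ℝ) + 1 ≤ r := by exact_mod_cast hl
  have h2 : D * 1 ≤ D * ((r : ℝ) - l) := mul_le_mul_of_nonneg_left (by linarith) hD.le
  unfold dgl
  linarith

theorem dgl_st {A D : ℝ} (hD : 0 < D) {r l l' : ℕ} (h : l' < l) :
    dgl A D r l + 4 * D ≤ dgl A D r l' := by
  have h1 : (l' : ℝ) + 1 ≤ l := by exact_mod_cast h
  have h2 : D * ((r : ℝ) - l + 1) ≤ D * ((r : ℝ) - l') :=
    mul_le_mul_of_nonneg_left (by linarith) hD.le
  unfold dgl
  linarith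

theorem dgl_le {A D : ℝ} (hD : 0 < D) (r l : ℕ) : dgl A D r l ≤ A + 4 * (D * r) := by
  have h1 : (0 : ℝ) ≤ l := Nat.cast_nonneg l
  have h2 : D * ((r : ℝ) - l) ≤ D * r := mul_le_mul_of_nonneg_left (by linarith) hD.le
  unfold dgl
  linarith

/-- **The digits of a near path.** -/
theorem nrW_dgl {sn : ℕ → ℝ → ℝ} {r n : ℕ} {T : Fin n → ℝ → ℝ} {b o τ κ₀ A D : ℝ} (hA : 0 ≤ A)
    (hD : 0 < D) (hbo : o - b ≤ D) (hτ : τ ≤ D) (hT : ∀ i, T i o ≤ T i b + A)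
    (hκ : A + 4 * (D * r) + 2 * D ≤ κ₀) :
    NrW sn r T (fun l => sn l b + dgl A D r l + 2 * D)
      (fun l => sn l b + dgl A D r l + 2 * D - b) (dgl A D r) b o τ κ₀ where
  lv0 := fun l hl => by linarith [dgl_lt (A := A) hD hl]
  h := fun l hl => by linarith
  v := fun l hl => by linarith
  s := fun l hl l' hl' => by linarith [dgl_st (A := A) (r := r) hD hl']
  sh := fun l hl l' hl' => by linarith [dgl_st (A := A) (r := r) hD hl']
  sv := fun l hl l' hl' => by linarith [dgl_st (A := A) (r := r) hD hl']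
  t := fun i l hl => by linarith [dgl_lt (A := A) hD hl, hT i]
  kh := fun l hl => by linarith [dgl_le (A := A) hD r l]
  kv := fun l hl => by linarith [dgl_le (A := A) hD r l]

variable {m : ℕ} {S : PCl m} {c : ℕ → Fin m} {r : ℕ} {b u₁ : ℝ} {sn : ℕ → ℝ → ℝ} {rd : ℕ → ℝ}
  {pf : ℕ → ℝ} {Nf : ℕ → ℕ → ℝ} {kf φ A D σ : ℝ}

/-- **From many uniform digits** to the digits of the near path. -/
theorem few_nf {C₀ : ℝ} (htm : TmC S C₀)
    (hpos : ∀ (τ : ℝ) (J : ℕ) (F : Fam m J) (A : F.Ω → Prop), S.St τ J F A → 0 < Pe F.p A)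
    (hch : Chn S c 0 r b b u₁ (fun l => sn l b) rd)
    (hφ : 0 ≤ φ) (hσ : 0 < σ) (hA : 0 ≤ A) (hD : 0 < D) (hpf : ∀ l < r, sn l b - φ ≤ pf l)
    (hNf : ∀ l < r, ∀ j ≤ 1, Nf l j = sn l b + kf - (j : ℕ) * b)
    (h1 : A + 4 * (D * r) + 2 * D ≤ kf) (h2 : φ + σ ≤ 2 * D)
    (h3 : A + 4 * (D * r) + 2 * D + φ + σ ≤ 1 - b) :
    Few S (fun J F => ptr F J) (vg b) (fun _ F => F.T)
      (qJets m c 0 r 1 (fun _ _ => b) (fun l _ => pf l) Nf)
      (paQ m c r b (fun l => sn l b) (fun l => sn l b + dgl A D r l + 2 * D)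
        (fun l => sn l b + dgl A D r l + 2 * D - b)) := by
  have e0 : min (1 : ℝ) (1 - b) = 1 - b := min_eq_right (by linarith [hch.w0])
  have hd : ∀ l, dgl A D r l ≤ A + 4 * (D * r) := fun l => dgl_le hD r l
  have hm : ∀ l < r, sn l b - φ ≤ min (pf l) (sn l b) := fun l hl =>
    le_min (hpf l hl) (by linarith)
  refine few_jets (f := fun J F => ptr F J) (y := fun _ F => F.T) htm hpos hch (j := 1)
    (wv := fun _ _ => b) (pv := fun l _ => pf l) (Nv := Nf) (lv := dgl A D r)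
    (wv' := fun _ _ => b) (pv' := fun l _ => sn l b)
    (Nv' := fun l j => if j = 0 then sn l b + dgl A D r l + 2 * D else
      sn l b + dgl A D r l + 2 * D - b) (p₀ := 1) (lam := 1)
    (σ₀ := σ) (fun _ _ _ _ _ => le_rfl) (fun _ _ _ _ _ => le_rfl) hch.u0 le_rfl one_pos hσ
    (fun l _ hl => by linarith [dgl_lt (A := A) hD hl])
    (fun l _ hl j' hj' => ?_) (fun l _ hl j' hj' => ?_) (fun l _ hl j' hj' l' _ hl' => ?_)
    (fun l _ hl j' hj' => ?_) (fun l _ hl j' hj' => ?_) (fun l _ hl j' hj' l' _ hl' => ?_)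
    (fun J F => ⟨fun x => x, fun _ => rfl⟩) (sdI_T c).kn
  · rw [hNf l hl j' hj']
    linarith [hd l]
  · rw [e0]
    linarith [hd l, hm l hl]
  · linarith [dgl_st (A := A) (r := r) hD hl', hm l hl]
  · rcases Nat.eq_zero_or_pos j' with rfl | hj
    · rw [hNf l hl 0 (by omega)]
      simp only [if_true, Nat.cast_zero, zero_mul, sub_zero]
      linarith [hd l]
    · obtain rfl : j' = 1 := by omega
      rw [hNf l hl 1 le_rfl]
      simp only [one_ne_zero, if_false, Nat.cast_one, one_mul]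
      linarith [hd l]
  · rw [e0]
    rcases Nat.eq_zero_or_pos j' with rfl | hj
    · simp only [if_true, Nat.cast_zero, zero_mul, add_zero]
      linarith [hd l, hm l hl]
    · obtain rfl : j' = 1 := by omega
      simp only [one_ne_zero, if_false, Nat.cast_one, one_mul]
      linarith [hd l, hm l hl]
  · rcases Nat.eq_zero_or_pos j' with rfl | hj
    · simp only [if_true, Nat.cast_zero, zero_mul, add_zero]
      linarith [dgl_st (A := A) (r := r) hD hl', hm l hl]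
    · obtain rfl : j' = 1 := by omega
      simp only [one_ne_zero, if_false, Nat.cast_one, one_mul]
      linarith [dgl_st (A := A) (r := r) hD hl', hm l hl]

/-- **From the digits of the near path** to few uniform digits. -/
theorem few_fn {C₀ : ℝ} (htm : TmC S C₀)
    (hpos : ∀ (τ : ℝ) (J : ℕ) (F : Fam m J) (A : F.Ω → Prop), S.St τ J F A → 0 < Pe F.p A)
    (hch : Chn S c 0 r b b u₁ (fun l => sn l b) rd)
    (hφ : 0 ≤ φ) (hσ : 0 < σ) (hA : 0 ≤ A) (hD : 0 < D) (hpf : ∀ l < r, sn l b - φ ≤ pf l)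
    (hNf : ∀ l < r, ∀ j ≤ 1, Nf l j = sn l b + kf - (j : ℕ) * b)
    (h1 : kf ≤ A) (h2 : φ + σ ≤ 2 * D)
    (h3 : A + 4 * (D * r) + 2 * D + φ + σ ≤ 1 - b) :
    Few S (fun J F => ptr F J) (vg b) (fun _ F => F.T)
      (paQ m c r b (fun l => sn l b) (fun l => sn l b + dgl A D r l + 2 * D)
        (fun l => sn l b + dgl A D r l + 2 * D - b))
      (qJets m c 0 r 1 (fun _ _ => b) (fun l _ => pf l) Nf) := by
  have e0 : min (1 : ℝ) (1 - b) = 1 - b := min_eq_right (by linarith [hch.w0])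
  have hd : ∀ l, dgl A D r l ≤ A + 4 * (D * r) := fun l => dgl_le hD r l
  have hDr : 0 ≤ D * r := by positivity
  have hm : ∀ l < r, sn l b - φ ≤ min (sn l b) (pf l) := fun l hl =>
    le_min (by linarith) (hpf l hl)
  refine few_jets (f := fun J F => ptr F J) (y := fun _ F => F.T) htm hpos hch (j := 1)
    (wv := fun _ _ => b) (pv := fun l _ => sn l b)
    (Nv := fun l j => if j = 0 then sn l b + dgl A D r l + 2 * D else
      sn l b + dgl A D r l + 2 * D - b) (lv := dgl A D r)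
    (wv' := fun _ _ => b) (pv' := fun l _ => pf l) (Nv' := Nf) (p₀ := 1) (lam := 1)
    (σ₀ := σ) (fun _ _ _ _ _ => le_rfl) (fun _ _ _ _ _ => le_rfl) hch.u0 le_rfl one_pos hσ
    (fun l _ hl => by linarith [dgl_lt (A := A) hD hl])
    (fun l _ hl j' hj' => ?_) (fun l _ hl j' hj' => ?_) (fun l _ hl j' hj' l' _ hl' => ?_)
    (fun l _ hl j' hj' => ?_) (fun l _ hl j' hj' => ?_) (fun l _ hl j' hj' l' _ hl' => ?_)
    (fun J F => ⟨fun x => x, fun _ => rfl⟩) (sdI_T c).kn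
  · rcases Nat.eq_zero_or_pos j' with rfl | hj
    · simp only [if_true, Nat.cast_zero, zero_mul, add_zero]
      linarith
    · obtain rfl : j' = 1 := by omega
      simp only [one_ne_zero, if_false, Nat.cast_one, one_mul]
      linarith
  · rw [e0, min_self]
    linarith [hd l]
  · rw [min_self]
    linarith [dgl_st (A := A) (r := r) hD hl']
  · rcases Nat.eq_zero_or_pos j' with rfl | hj
    · rw [hNf l hl 0 (by omega)]
      simp only [if_true, Nat.cast_zero, zero_mul, sub_zero]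
      linarith [dgl_lt (A := A) hD hl]
    · obtain rfl : j' = 1 := by omega
      rw [hNf l hl 1 le_rfl]
      simp only [one_ne_zero, if_false, Nat.cast_one, one_mul]
      linarith [dgl_lt (A := A) hD hl]
  · rw [e0, hNf l hl j' hj']
    linarith [hd l, hm l hl]
  · rw [hNf l hl j' hj']
    linarith [dgl_lt (A := A) hD (show l' < r by omega), hm l hl]

section

variable {G : Set ℝ} {k : Fin m}

/-- **Other digits of the velocity** given the near path. -/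
theorem fewC_v {C₀ : ℝ} (htm : TmC S C₀)
    (hpos : ∀ (τ : ℝ) (J : ℕ) (F : Fam m J) (A : F.Ω → Prop), S.St τ J F A → 0 < Pe F.p A)
    (hW : ChG S c r sn G) (hb : b ∈ G) (hA : 0 ≤ A) (hD : 0 < D)
    (h3 : A + 4 * (D * r) + 2 * D ≤ 1 - b) {p₁ p₂ N₁ N₂ c₀ : ℝ} (hc0 : 0 ≤ c₀)
    (hc : Real.log 2 * (N₂ - N₁) ≤ c₀) (ht : N₂ + b ≤ min p₁ p₂ + A + D) :
    FewC S (fun J F => ptr F J) (vg b) (fun _ F => F.T)
      ((paQ m c r b (fun l => sn l b) (fun l => sn l b + dgl A D r l + 2 * D)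
        (fun l => sn l b + dgl A D r l + 2 * D - b)).prod
        (qJet m ((range r).image c) k 1 b p₁ N₁)) (qJet m ((range r).image c) k 1 b p₂ N₂) c₀ := by
  have hl2 : 0 < Real.log 2 := Real.log_pos one_lt_two
  have hDr : 0 ≤ D * r := by positivity
  have hd : ∀ l, dgl A D r l ≤ A + 4 * (D * r) := fun l => dgl_le hD r l
  refine fewC_tgC (lv := dgl A D r) (σ₀ := D) (M := min N₁ N₂) htm hpos hW
    (fun J F => ⟨fun x => x, fun _ => rfl⟩) (sdI_T c).kn hb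
    { σ0 := hD
      bW := le_rfl
      lv0 := fun l hl => by linarith [dgl_lt (A := A) hD hl]
      mn := fun _ _ => le_rfl
      h := fun l hl => by linarith
      v := fun l hl => by linarith
      r := fun l hl => by linarith [hd l]
      s := fun l hl l' hl' => by linarith [dgl_st (A := A) (r := r) hD hl'] }
    le_rfl le_rfl (min_le_left _ _) (min_le_right _ _) ?_ ?_ fun l hl => ?_
  · rcases min_choice N₁ N₂ with h | h
    · rw [h]
      exact hc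
    · rw [h, sub_self, mul_zero]
      exact hc0
  · linarith [min_le_right N₁ N₂]
  · linarith [min_le_right N₁ N₂, dgl_lt (A := A) hD hl]

variable {T : ℝ → ℝ} {o x ρ κ pr N' c₀ η' : ℝ}

/-- **The first jet** is few bits if the rate is small. -/
theorem rt_f1 {C₀ : ℝ} (htm : TmC S C₀)
    (hpos : ∀ (τ : ℝ) (J : ℕ) (F : Fam m J) (A : F.Ω → Prop), S.St τ J F A → 0 < Pe F.p A)
    (hW : ChG S c r sn G) (hb : b ∈ G) (hη : ∃ η, RNum S (fun J F => ptr F J) (vg b) η)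
    (hat : ∃ rk, 0 ≤ rk ∧ Att S ((range r).image c) k b (T b) rk)
    (hφ : 0 ≤ φ) (hσ : 0 < σ) (hA : 0 ≤ A) (hD : 0 < D) (hpf : ∀ l < r, sn l b - φ ≤ pf l)
    (hNf : ∀ l < r, ∀ j ≤ 1, Nf l j = sn l b + kf - (j : ℕ) * b)
    (h1 : A + 4 * (D * r) + 2 * D ≤ kf) (h2 : φ + σ ≤ 2 * D)
    (h3 : A + 4 * (D * r) + 2 * D + φ + σ ≤ 1 - b)
    (hR : RtW S (fun (_ : ℕ) (F : Fam m _) => F.T) c r (fun _ : Fin 1 => k) sn (fun _ w => T w)
      (fun l => sn l b + dgl A D r l + 2 * D) (fun l => sn l b + dgl A D r l + 2 * D - b)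
      b b o ρ κ)
    (hpr : T b - φ ≤ pr) (hN : N' + b ≤ T b - φ + A + D) (hc0 : 0 ≤ c₀)
    (hc : Real.log 2 * (N' - (T o - o)) ≤ c₀) (hη' : ρ + κ + c₀ < η') :
    ∃ e : ℝ, 0 < e ∧ F1 S (fun J F => ptr F J) (vg b) (fun _ F => F.T)
      (qJets m c 0 r 1 (fun _ _ => b) (fun l _ => pf l) Nf)
      (qJet m ((range r).image c) k 1 b pr N') e η' := by
  obtain ⟨δ, hδ, hδη⟩ : ∃ δ : ℝ, 0 < δ ∧ 4 * δ = η' - (ρ + κ + c₀) :=
    ⟨(η' - (ρ + κ + c₀)) / 4, by linarith, by ring⟩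
  obtain ⟨u₁, rd, hrd, hch⟩ := hW.ch b hb
  obtain ⟨k1, hk1, e1, he1, H1⟩ := hR
  obtain ⟨e2, he2, H2⟩ := (few_nf htm hpos hch hφ hσ hA hD hpf hNf h1 h2 h3).mx hpos δ hδ
  have hq3 := fewC_v (k := k) (p₁ := T b) (p₂ := pr) (N₁ := T o - o) (N₂ := N') (c₀ := c₀)
    htm hpos hW hb hA hD (by linarith) hc0 hc (by
      have := le_min (show T b - φ ≤ T b by linarith) hpr
      linarith)
  obtain ⟨e3, he3, H3⟩ := hq3.mx hpos δ hδ
  obtain ⟨e₀, he₀, l1, l2, l3⟩ : ∃ e₀ : ℝ, 0 < e₀ ∧ e₀ ≤ e1 ∧ e₀ ≤ e2 ∧ e₀ ≤ e3 :=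
    ⟨min e1 (min e2 e3), by positivity, by simp, by simp, by simp⟩
  obtain ⟨κ₁, hκ₁, m1, m2⟩ : ∃ κ₁ : ℝ, 0 < κ₁ ∧ κ₁ ≤ k1 ∧ κ₁ ≤ δ / 2 :=
    ⟨min k1 (δ / 2), by positivity, by simp, by simp⟩
  obtain ⟨K₁, M₁, X1⟩ := exs_pa hW hb (fun l => sn l b + dgl A D r l + 2 * D)
    (fun l => sn l b + dgl A D r l + 2 * D - b) e₀ he₀
  obtain ⟨rk, hrk, hat⟩ := hat
  have xv : Exs S (tgR m c r (fun _ : Fin 1 => k) (fun _ w => T w) b o) :=
    exs_pi fun _ => exs_jet hrk hat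
  obtain ⟨K₂, M₂, X2⟩ := xv e₀ he₀
  obtain ⟨η, hη⟩ := hη
  refine ⟨e₀, he₀, fun K => ?_⟩
  obtain ⟨L, hL0, hL1, hL2⟩ : ∃ L : ℕ, K ≤ L ∧ K₁ ≤ L ∧ K₂ ≤ L :=
    ⟨max K (max K₁ K₂), le_max_left _ _, (le_max_left _ _).trans (le_max_right _ _),
      (le_max_right _ _).trans (le_max_right _ _)⟩
  refine Bas.mono 0 ((((H1 L).and (H2 L)).and (H3 L)).and (((mx_ex hpos hη κ₁ hκ₁).and
    (pos_bas hpos)).and (X1.and X2))) ?_
  rintro J - F B ⟨⟨⟨H1, H2⟩, H3⟩, ⟨⟨V, z, hz⟩, hB⟩, ⟨pa, hpa, -⟩, v, hv, -⟩ u u' hu hu'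
  have h0 := (isLaw_cond F.isLaw hB).nonneg
  have hJ0 : (0 : ℝ) ≤ J := Nat.cast_nonneg J
  have hpa := (paQ m c r b (fun l => sn l b) (fun l => sn l b + dgl A D r l + 2 * D)
    (fun l => sn l b + dgl A D r l + 2 * D - b)).mono hL1 le_rfl hpa
  have hv := (tgR m c r (fun _ : Fin 1 => k) (fun _ w => T w) b o).mono hL2 le_rfl hv
  have hu := (qJets m c 0 r 1 (fun _ _ => b) (fun l _ => pf l) Nf).mono hL0 le_rfl hu
  have hu' := (qJet m ((range r).image c) k 1 b pr N').mono hL0 le_rfl hu'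
  have r1 := (abs_le.1 (H1 V z (hz.le' m1) v pa
    ((tgR m c r (fun _ : Fin 1 => k) (fun _ w => T w) b o).mono le_rfl l1 hv)
    ((paQ m c r b _ _ _).mono le_rfl l1 hpa))).2
  have r2 := H2 V z (hz.le' m2) u pa ((qJets m c 0 r 1 _ _ Nf).mono le_rfl l2 hu)
    ((paQ m c r b _ _ _).mono le_rfl l2 hpa)
  have r3 := H3 V z (hz.le' m2) (fun ω => (pa ω, v ω 0)) u'
    ⟨(paQ m c r b _ _ _).mono le_rfl l3 hpa, (qJet m ((range r).image c) k 1 b _ _).mono le_rfl l3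
      (hv 0)⟩ ((qJet m ((range r).image c) k 1 b _ _).mono le_rfl l3 hu')
  refine ⟨V, z, hz.1, ?_⟩
  have s1 := CH_le_add h0 u' (fun ω => (pa ω, v ω)) (fun ω => (u ω, (z ω, F.T ω)))
  have s1' : CH (Pool.Agent.H49.Ent.cond F.p B True) u'
      (fun ω => ((pa ω, v ω), (u ω, (z ω, F.T ω)))) ≤
      CH (Pool.Agent.H49.Ent.cond F.p B True) u' (fun ω => ((pa ω, v ω 0), (z ω, F.T ω))) := by
    refine CH_mono_cond h0 fun ω ω' _ _ h => ?_
    simp only [Prod.mk.injEq] at h ⊢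
    exact ⟨⟨h.1.1, by rw [h.1.2]⟩, h.2.2⟩
  have s2 := CH_chain h0 v pa (fun ω => (u ω, (z ω, F.T ω)))
  have s2' : CH (Pool.Agent.H49.Ent.cond F.p B True) (fun ω => (pa ω, v ω))
      (fun ω => (u ω, (z ω, F.T ω))) = CH (Pool.Agent.H49.Ent.cond F.p B True)
      (fun ω => (v ω, pa ω)) (fun ω => (u ω, (z ω, F.T ω))) := by
    refine CH_congr h0 ?_ ?_ (fun _ _ _ _ hh => hh) (fun _ _ _ _ hh => hh) <;>
    · intro ω ω' _ _ hh
      simp only [Prod.mk.injEq] at hh ⊢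
      exact ⟨hh.1.2, hh.1.1⟩
  have s3 : CH (Pool.Agent.H49.Ent.cond F.p B True) v (fun ω => (pa ω, (u ω, (z ω, F.T ω)))) ≤
      CH (Pool.Agent.H49.Ent.cond F.p B True) v (fun ω => (pa ω, (z ω, F.T ω))) := by
    refine CH_mono_cond h0 fun ω ω' _ _ h => ?_
    simp only [Prod.mk.injEq] at h ⊢
    exact ⟨h.1, h.2.2⟩
  have hη'' : η' * J = ρ * J + κ * J + c₀ * J + 4 * (δ * J) := by
    have : η' = ρ + κ + c₀ + 4 * δ := by linarith
    rw [this]
    ring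
  have e3 : (c₀ + δ) * J = c₀ * J + δ * J := by ring
  have e4 : 0 ≤ δ * J := by positivity
  rw [e3] at r3
  rw [hη'']
  linarith

/-- **The velocity is alive** if the rate is large. -/
theorem rt_alv {C₀ : ℝ} (htm : TmC S C₀)
    (hpos : ∀ (τ : ℝ) (J : ℕ) (F : Fam m J) (A : F.Ω → Prop), S.St τ J F A → 0 < Pe F.p A)
    (hW : ChG S c r sn G) (hb : b ∈ G) (hbx : b ≤ x) (hx1 : x ≤ 1)
    (hη : ∃ η, RNum S (fun J F => ptr F J) (vg x) η)
    (hat : ∃ rk, 0 ≤ rk ∧ Att S ((range r).image c) k b (T b) rk)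
    (hφ : 0 ≤ φ) (hσ : 0 < σ) (hA : 0 ≤ A) (hD : 0 < D) (hpf : ∀ l < r, sn l b - φ ≤ pf l)
    (hNf : ∀ l < r, ∀ j ≤ 1, Nf l j = sn l b + kf - (j : ℕ) * b)
    (h1 : kf ≤ A) (h2 : φ + σ ≤ 2 * D)
    (h3 : A + 4 * (D * r) + 2 * D + φ + σ ≤ 1 - b)
    (hR : RtW S (fun (_ : ℕ) (F : Fam m _) => F.T) c r (fun _ : Fin 1 => k) sn (fun _ w => T w)
      (fun l => sn l b + dgl A D r l + 2 * D) (fun l => sn l b + dgl A D r l + 2 * D - b)
      b x o ρ κ)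
    (hpr : T b - φ ≤ pr) (hN : T o - o + b ≤ T b - φ + A + D) (hc0 : 0 ≤ c₀)
    (hc : Real.log 2 * (T o - o - N') ≤ c₀) (hη' : η' < ρ - κ - c₀) :
    ∃ e : ℝ, 0 < e ∧ AlvQ S x (fun (_ : ℕ) (F : Fam m _) => F.T)
      (qJets m c 0 r 1 (fun _ _ => b) (fun l _ => pf l) Nf)
      (qJet m ((range r).image c) k 1 b pr N') e η' := by
  obtain ⟨δ, hδ, hδη⟩ : ∃ δ : ℝ, 0 < δ ∧ 4 * δ = ρ - κ - c₀ - η' :=
    ⟨(ρ - κ - c₀ - η') / 4, by linarith, by ring⟩
  obtain ⟨u₁, rd, hrd, hch⟩ := hW.ch b hb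
  have up : ∀ {U U' : Type} {Q : Qt m U} {Q' : Qt m U'} {a : ℝ},
      FewC S (fun J F => ptr F J) (vg b) (fun _ F => F.T) Q Q' a →
      FewC S (fun J F => ptr F J) (vg x) (fun _ F => F.T) Q Q' a := fun h3 =>
    FewC.up hpos (fun J F => ⟨fun x => x, fun _ => rfl⟩) (fun J F => vg_mono hbx hx1 J F)
      (fun J F => ⟨fun x => x, fun _ => rfl⟩) h3
  obtain ⟨k1, hk1, e1, he1, H1⟩ := hR
  obtain ⟨e2, he2, H2⟩ := (up (few_fn htm hpos hch hφ hσ hA hD hpf hNf h1 h2 h3).fewC).mx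
    hpos δ hδ
  have hq3 := fewC_v (k := k) (p₁ := pr) (p₂ := T b) (N₁ := N') (N₂ := T o - o) (c₀ := c₀)
    htm hpos hW hb hA hD (by linarith) hc0 hc (by
      have := le_min hpr (show T b - φ ≤ T b by linarith)
      linarith)
  obtain ⟨e3, he3, H3⟩ := (up hq3).mx hpos δ hδ
  obtain ⟨e₀, he₀, l1, l2, l3⟩ : ∃ e₀ : ℝ, 0 < e₀ ∧ e₀ ≤ e1 ∧ e₀ ≤ e2 ∧ e₀ ≤ e3 :=
    ⟨min e1 (min e2 e3), by positivity, by simp, by simp, by simp⟩
  obtain ⟨κ₁, hκ₁, m1, m2⟩ : ∃ κ₁ : ℝ, 0 < κ₁ ∧ κ₁ ≤ k1 ∧ κ₁ ≤ δ / 2 :=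
    ⟨min k1 (δ / 2), by positivity, by simp, by simp⟩
  obtain ⟨K₁, M₁, X1⟩ := exs_pa hW hb (fun l => sn l b + dgl A D r l + 2 * D)
    (fun l => sn l b + dgl A D r l + 2 * D - b) e₀ he₀
  obtain ⟨rk, hrk, hat⟩ := hat
  have xv : Exs S (tgR m c r (fun _ : Fin 1 => k) (fun _ w => T w) b o) :=
    exs_pi fun _ => exs_jet hrk hat
  obtain ⟨K₂, M₂, X2⟩ := xv e₀ he₀
  obtain ⟨η, hη⟩ := hη
  refine ⟨e₀, he₀, fun K => ?_⟩
  obtain ⟨L, hL0, hL1, hL2⟩ : ∃ L : ℕ, K ≤ L ∧ K₁ ≤ L ∧ K₂ ≤ L :=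
    ⟨max K (max K₁ K₂), le_max_left _ _, (le_max_left _ _).trans (le_max_right _ _),
      (le_max_right _ _).trans (le_max_right _ _)⟩
  refine Bas.mono 0 ((((H1 L).and (H2 L)).and (H3 L)).and (((mx_ex hpos hη κ₁ hκ₁).and
    (pos_bas hpos)).and (X1.and X2))) ?_
  rintro J - F B ⟨⟨⟨H1, H2⟩, H3⟩, ⟨⟨V₀, z₀, hz₀⟩, hB⟩, ⟨pa, hpa, -⟩, v, hv, -⟩ u u' hu hu' V z hz
  have h0 := (isLaw_cond F.isLaw hB).nonneg
  have hJ0 : (0 : ℝ) ≤ J := Nat.cast_nonneg J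
  have hpa := (paQ m c r b (fun l => sn l b) (fun l => sn l b + dgl A D r l + 2 * D)
    (fun l => sn l b + dgl A D r l + 2 * D - b)).mono hL1 le_rfl hpa
  have hv := (tgR m c r (fun _ : Fin 1 => k) (fun _ w => T w) b o).mono hL2 le_rfl hv
  have hu := (qJets m c 0 r 1 (fun _ _ => b) (fun l _ => pf l) Nf).mono hL0 le_rfl hu
  have hu' := (qJet m ((range r).image c) k 1 b pr N').mono hL0 le_rfl hu'
  -- the record with `z`
  have hzz : Mx (fun J F => ptr F J) (vg x) κ₁ F B (fun ω => (z ω, z₀ ω)) := by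
    refine ⟨hz.join hz₀.1, fun V' z' hz' => le_trans (CH_mono_cond h0 fun ω ω' _ _ hh => ?_)
      (hz₀.2 V' z' hz')⟩
    exact (Prod.ext_iff.mp hh).2
  have r1 := (abs_le.1 (H1 _ _ (hzz.le' m1) v pa
    ((tgR m c r (fun _ : Fin 1 => k) (fun _ w => T w) b o).mono le_rfl l1 hv)
    ((paQ m c r b _ _ _).mono le_rfl l1 hpa))).1
  have r2 := H2 _ _ (hzz.le' m2) pa u ((paQ m c r b _ _ _).mono le_rfl l2 hpa)
    ((qJets m c 0 r 1 _ _ Nf).mono le_rfl l2 hu)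
  have r3 := H3 _ _ (hzz.le' m2) (fun ω => (pa ω, u' ω)) (fun ω => v ω 0)
    ⟨(paQ m c r b _ _ _).mono le_rfl l3 hpa, (qJet m ((range r).image c) k 1 b _ _).mono le_rfl l3
      hu'⟩ ((qJet m ((range r).image c) k 1 b _ _).mono le_rfl l3 (hv 0))
  have s0 : CH (Pool.Agent.H49.Ent.cond F.p B True) v
      (fun ω => (pa ω, ((z ω, z₀ ω), F.T ω))) =
      CH (Pool.Agent.H49.Ent.cond F.p B True) (fun ω => v ω 0)
      (fun ω => (pa ω, ((z ω, z₀ ω), F.T ω))) := by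
    refine CH_congr h0 ?_ ?_ (fun _ _ _ _ hh => hh) (fun _ _ _ _ hh => hh)
    · intro ω ω' _ _ hh
      simp only [Prod.mk.injEq] at hh
      exact congrFun hh.1 0
    · intro ω ω' _ _ hh
      simp only [Prod.mk.injEq] at hh
      funext i
      have : i = 0 := Subsingleton.elim _ _
      rw [this]
      exact hh.1
  have s1 := CH_le_add h0 (fun ω => v ω 0) (fun ω => (u ω, u' ω))
    (fun ω => (pa ω, ((z ω, z₀ ω), F.T ω)))
  have s1' : CH (Pool.Agent.H49.Ent.cond F.p B True) (fun ω => v ω 0)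
      (fun ω => ((u ω, u' ω), (pa ω, ((z ω, z₀ ω), F.T ω)))) ≤
      CH (Pool.Agent.H49.Ent.cond F.p B True) (fun ω => v ω 0)
        (fun ω => ((pa ω, u' ω), ((z ω, z₀ ω), F.T ω))) := by
    refine CH_mono_cond h0 fun ω ω' _ _ h => ?_
    simp only [Prod.mk.injEq] at h ⊢
    exact ⟨⟨h.2.1, h.1.2⟩, h.2.2⟩
  have s2 := CH_chain h0 u' u (fun ω => (pa ω, ((z ω, z₀ ω), F.T ω)))
  have s2' : CH (Pool.Agent.H49.Ent.cond F.p B True) (fun ω => (u ω, u' ω))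
      (fun ω => (pa ω, ((z ω, z₀ ω), F.T ω))) = CH (Pool.Agent.H49.Ent.cond F.p B True)
      (fun ω => (u' ω, u ω)) (fun ω => (pa ω, ((z ω, z₀ ω), F.T ω))) := by
    refine CH_congr h0 ?_ ?_ (fun _ _ _ _ hh => hh) (fun _ _ _ _ hh => hh) <;>
    · intro ω ω' _ _ hh
      simp only [Prod.mk.injEq] at hh ⊢
      exact ⟨hh.1.2, hh.1.1⟩
  have s3 : CH (Pool.Agent.H49.Ent.cond F.p B True) u'
      (fun ω => (u ω, (pa ω, ((z ω, z₀ ω), F.T ω)))) ≤
      CH (Pool.Agent.H49.Ent.cond F.p B True) u' (fun ω => (u ω, (z ω, F.T ω))) := by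
    refine CH_mono_cond h0 fun ω ω' _ _ h => ?_
    simp only [Prod.mk.injEq] at h ⊢
    exact ⟨h.1, h.2.2.1.1, h.2.2.2⟩
  have hη'' : η' * J = ρ * J - κ * J - c₀ * J - 4 * (δ * J) := by
    have : η' = ρ - κ - c₀ - 4 * δ := by linarith
    rw [this]
    ring
  have e2 : (0 + δ) * (J : ℝ) = δ * J := by ring
  have e3 : (c₀ + δ) * J = c₀ * J + δ * J := by ring
  have e4 : 0 ≤ δ * J := by positivity
  rw [e2] at r2
  rw [e3] at r3
  rw [hη'']
  rw [s0] at r1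
  linarith

end

end Pool.RV28
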