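import Pool.Agent.H28.RV.Box
import Pool.Agent.H28.RV.Use

/-!
# One rate for all errors

`rtW_cmp`: two rates of the same velocity are close. `RtU`: the rate `φ` of the velocities at the
point `g`, for all errors. `rtG_uni`: from `RtG` to `RtU`.
-/

set_option autoImplicit false

namespace Pool.RV28

open Finset Real MvPolynomial
open Pool.Agent.H49.Ent Pool.Agent.H32.Dense Pool.STK Pool.KA Pool.KSAT Pool.K2S Pool.PB Pool.S6C
  Pool.GEN Pool.RCD Pool.LA91 Pool.LP30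

section

variable {m : ℕ} {S : PCl m} {γ : ∀ J : ℕ, Fam m J → Type}
  {y₀ : ∀ (J : ℕ) (F : Fam m J), F.Ω → γ J F} {c : ℕ → Fin m} {d : ℕ}
  {sn : ℕ → ℝ → ℝ} {G : Set ℝ} {n : ℕ} {k : Fin n → Fin m} {T : Fin n → ℝ → ℝ}

/-- **Two rates** of the same velocity are close. -/
theorem rtW_cmp (hne : S.Ne)
    (hpos : ∀ (τ : ℝ) (J : ℕ) (F : Fam m J) (A : F.Ω → Prop), S.St τ J F A → 0 < Pe F.p A)
    {b x o ρ₁ κ₁ ρ₂ κ₂ : ℝ} {nH nV : ℕ → ℝ}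
    (hη : ∃ η, RNum S (fun J F => ptr F J) (vg x) η) (hW : ChG S c d sn G) (hb : b ∈ G)
    (hat : ∀ i, ∃ rk, 0 ≤ rk ∧ Att S ((range d).image c) (k i) b (T i b) rk)
    (h1 : RtW S y₀ c d k sn T nH nV b x o ρ₁ κ₁) (h2 : RtW S y₀ c d k sn T nH nV b x o ρ₂ κ₂) :
    |ρ₁ - ρ₂| ≤ κ₁ + κ₂ := by
  obtain ⟨k1, hk1, e1, he1, H1⟩ := h1
  obtain ⟨k2, hk2, e2, he2, H2⟩ := h2
  obtain ⟨e₀, he₀, l1, l2⟩ : ∃ e₀ : ℝ, 0 < e₀ ∧ e₀ ≤ e1 ∧ e₀ ≤ e2 :=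
    ⟨min e1 e2, by positivity, by simp, by simp⟩
  obtain ⟨κ, hκ, m1, m2⟩ : ∃ κ : ℝ, 0 < κ ∧ κ ≤ k1 ∧ κ ≤ k2 :=
    ⟨min k1 k2, by positivity, by simp, by simp⟩
  obtain ⟨K₁, M₁, X1⟩ := exs_pa hW hb nH nV e₀ he₀
  have xv : Exs S (tgR m c d k T b o) := exs_pi fun i => by
    obtain ⟨rk, r1, r2⟩ := hat i
    exact exs_jet r1 r2
  obtain ⟨K₂, M₂, X2⟩ := xv e₀ he₀
  obtain ⟨η, hη⟩ := hη
  obtain ⟨L, hL1, hL2⟩ : ∃ L : ℕ, K₁ ≤ L ∧ K₂ ≤ L := ⟨max K₁ K₂, le_max_left _ _, le_max_right _ _⟩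
  obtain ⟨τ, hτ, J₁, HB⟩ := ((H1 L).and (H2 L)).and ((mx_ex hpos hη κ hκ).and (X1.and X2))
  obtain ⟨J, hJ, F, A, hA⟩ := hne τ hτ (max J₁ 1)
  obtain ⟨⟨b1, b2⟩, ⟨V, z, hz⟩, ⟨pa, hpa, -⟩, u, hu, -⟩ :=
    HB J ((le_max_left _ _).trans hJ) F A hA
  have hJ1 : (1 : ℝ) ≤ J := by exact_mod_cast (le_max_right J₁ 1).trans hJ
  have hu' := (tgR m c d k T b o).mono hL2 le_rfl hu
  have hpa' := (paQ m c d b (fun l => sn l b) nH nV).mono hL1 le_rfl hpa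
  have r1 := abs_le.1 (b1 V z (hz.le' m1) u pa ((tgR m c d k T b o).mono le_rfl l1 hu')
    ((paQ m c d b (fun l => sn l b) nH nV).mono le_rfl l1 hpa'))
  have r2 := abs_le.1 (b2 V z (hz.le' m2) u pa ((tgR m c d k T b o).mono le_rfl l2 hu')
    ((paQ m c d b (fun l => sn l b) nH nV).mono le_rfl l2 hpa'))
  rw [abs_le]
  constructor
  · by_contra hlt
    rw [not_le] at hlt
    have h3 : (ρ₁ - ρ₂) * J < -(κ₁ + κ₂) * J := mul_lt_mul_of_pos_right hlt (by linarith)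
    linarith [r1.1, r1.2, r2.1, r2.2]
  · by_contra hlt
    rw [not_le] at hlt
    have h3 : (κ₁ + κ₂) * J < (ρ₁ - ρ₂) * J := mul_lt_mul_of_pos_right hlt (by linarith)
    linarith [r1.1, r1.2, r2.1, r2.2]

/-- Another rate and a larger error. -/
theorem RtW.le {b x o ρ κ ρ' κ' : ℝ} {nH nV : ℕ → ℝ} (h : RtW S y₀ c d k sn T nH nV b x o ρ κ)
    (hκ : |ρ - ρ'| + κ ≤ κ') : RtW S y₀ c d k sn T nH nV b x o ρ' κ' := by
  obtain ⟨k1, hk1, e1, he1, H⟩ := h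
  refine ⟨k1, hk1, e1, he1, fun K => Bas.mono 0 (H K) ?_⟩
  intro J _ F A H V z hz u pa hu hpa
  have h1 := abs_le.1 (H V z hz u pa hu hpa)
  have hJ : (0 : ℝ) ≤ J := Nat.cast_nonneg J
  have h2 := abs_le.1 (le_refl |ρ - ρ'|)
  have h3 : (|ρ - ρ'| + κ) * J ≤ κ' * J := mul_le_mul_of_nonneg_right hκ hJ
  have h4 : (ρ - ρ') * J ≤ |ρ - ρ'| * J := mul_le_mul_of_nonneg_right h2.2 hJ
  have h5 : -|ρ - ρ'| * J ≤ (ρ - ρ') * J := mul_le_mul_of_nonneg_right h2.1 hJ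
  rw [abs_le]
  constructor <;> linarith [h1.1, h1.2]

/-- Smaller tolerance. -/
theorem nrW_τ {nH nV lv : ℕ → ℝ} {b o τ τ' κ₀ : ℝ} (h : NrW sn d T nH nV lv b o τ κ₀)
    (hτ : τ' ≤ τ) : NrW sn d T nH nV lv b o τ' κ₀ where
  lv0 := h.lv0
  h := fun l hl => by linarith [h.h l hl]
  v := fun l hl => by linarith [h.v l hl]
  s := fun l hl l' hl' => by linarith [h.s l hl l' hl']
  sh := fun l hl l' hl' => by linarith [h.sh l hl l' hl']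
  sv := fun l hl l' hl' => by linarith [h.sv l hl l' hl']
  t := fun i l hl => by linarith [h.t i l hl]
  kh := h.kh
  kv := h.kv

/-- **The rate** `φ` of the velocities of the targets given the near path at the point `g`, for all
errors. -/
def RtU (S : PCl m) (y₀ : ∀ (J : ℕ) (F : Fam m J), F.Ω → γ J F) (c : ℕ → Fin m) (d : ℕ) {n : ℕ}
    (k : Fin n → Fin m) (sn : ℕ → ℝ → ℝ) (T : Fin n → ℝ → ℝ) (G : Set ℝ) (g φ : ℝ) : Prop :=
  ∀ e : ℝ, 0 < e → ∃ κ₀ : ℝ, 0 < κ₀ ∧ ∃ r₀ : ℝ, 0 < r₀ ∧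
    ∀ r : ℝ, 0 < r → r < r₀ →
    ∀ b ∈ G, ∀ x o : ℝ, g - r ≤ b → b ≤ x → x ≤ o → o ≤ g + r →
    ∀ nH nV lv : ℕ → ℝ, NrW sn d T nH nV lv b o (e * r) κ₀ →
      RtW S y₀ c d k sn T nH nV b x o (φ * (o - x)) (e * r)

theorem RtU.sub {S' : PCl m} (hs : ∀ (τ : ℝ) (J : ℕ) (F : Fam m J) (A : F.Ω → Prop),
    S'.St τ J F A → S.St τ J F A) {g φ : ℝ} (h : RtU S y₀ c d k sn T G g φ) :
    RtU S' y₀ c d k sn T G g φ := by
  intro e he
  obtain ⟨κ₀, hκ, r₀, hr, H⟩ := h e he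
  exact ⟨κ₀, hκ, r₀, hr, fun r h1 h2 b hb x o a1 a2 a3 a4 nH nV lv hN =>
    (H r h1 h2 b hb x o a1 a2 a3 a4 nH nV lv hN).sub hs⟩

/-- **One rate for all errors.** -/
theorem rtG_uni (hne : S.Ne)
    (hpos : ∀ (τ : ℝ) (J : ℕ) (F : Fam m J) (A : F.Ω → Prop), S.St τ J F A → 0 < Pe F.p A)
    {g Sg : ℝ} (hη : ∀ w : ℚ, ∃ η, RNum S (fun J F => ptr F J) (vg (w : ℝ)) η)
    (hW : ChG S c d sn G) (hg : g ∈ G)
    (hat : ∀ i, ∃ rk, 0 ≤ rk ∧ Att S ((range d).image c) (k i) g (T i g) rk) (hSg : 0 ≤ Sg)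
    (hT : TgB T g Sg) (h : RtG S y₀ c d k sn T G g) :
    ∃ φ : ℝ, 0 ≤ φ ∧ RtU S y₀ c d k sn T G g φ := by
  have he : ∀ i : ℕ, (0 : ℝ) < 1 / ((i : ℝ) + 1) := fun i => by positivity
  choose φ hφ κ₀ hκ₀ r₀ hr₀ H using fun i : ℕ => h _ (he i)
  obtain ⟨ρ₁, hρ₁, hT⟩ := hT 1 one_pos
  have key : ∀ i j : ℕ, |φ i - φ j| ≤ 2 * (1 / ((i : ℝ) + 1) + 1 / ((j : ℝ) + 1)) := by
    intro i j
    obtain ⟨C, hC⟩ : ∃ C : ℝ, C = (Sg + 1) + 4 * (2 * (d : ℝ)) + 4 := ⟨_, rfl⟩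
    have hC0 : 0 < C := by
      rw [hC]
      positivity
    obtain ⟨r, hr, s1, s2, s3, s4⟩ : ∃ r : ℝ, 0 < r ∧ r < ρ₁ ∧ r < r₀ i ∧ r < r₀ j ∧
        C * r ≤ min (κ₀ i) (κ₀ j) := by
      have hm : 0 < min (min ρ₁ (min (r₀ i) (r₀ j))) (min (κ₀ i) (κ₀ j) / C) :=
        lt_min (lt_min hρ₁ (lt_min (hr₀ i) (hr₀ j))) (div_pos (lt_min (hκ₀ i) (hκ₀ j)) hC0)
      refine ⟨min (min ρ₁ (min (r₀ i) (r₀ j))) (min (κ₀ i) (κ₀ j) / C) / 2, by positivity, ?_, ?_,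
        ?_, ?_⟩
      · exact (half_lt_self hm).trans_le ((min_le_left _ _).trans (min_le_left _ _))
      · exact (half_lt_self hm).trans_le ((min_le_left _ _).trans ((min_le_right _ _).trans
          (min_le_left _ _)))
      · exact (half_lt_self hm).trans_le ((min_le_left _ _).trans ((min_le_right _ _).trans
          (min_le_right _ _)))
      · have h1 := (half_lt_self hm).le.trans (min_le_right _ _)
        rw [le_div_iff₀ hC0] at h1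
        linarith
    have hl : ∀ i : ℕ, 1 / ((i : ℝ) + 1) ≤ 1 := fun i => by
      rw [div_le_one (by positivity)]
      have : (0 : ℝ) ≤ i := Nat.cast_nonneg i
      linarith
    have hd0 : (0 : ℝ) ≤ d := Nat.cast_nonneg d
    have hN : ∀ l : ℕ, l = i ∨ l = j → NrW sn d T (fun l => sn l g + dgl ((Sg + 1) * r) (2 * r) d l +
        2 * (2 * r)) (fun l => sn l g + dgl ((Sg + 1) * r) (2 * r) d l + 2 * (2 * r) - g)
        (dgl ((Sg + 1) * r) (2 * r) d) g (g + r) (1 / ((l : ℝ) + 1) * r) (κ₀ l) := by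
      intro l hl'
      refine nrW_dgl (by positivity) (by linarith) (by linarith) ?_ (fun i' => ?_) ?_
      · have := mul_le_mul_of_nonneg_right (hl l) hr.le
        linarith
      · have := (hT r hr s1 i' g (g + r) (by linarith) (by linarith) le_rfl).2
        linarith
      · have h1 : C * r ≤ κ₀ l := by
          rcases hl' with rfl | rfl
          · exact s4.trans (min_le_left _ _)
          · exact s4.trans (min_le_right _ _)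
        rw [hC] at h1
        linarith
    obtain ⟨x, x1, x2⟩ := exists_rat_btwn (show g < g + r / 2 by linarith)
    have h1 := H i r hr s2 g hg x (g + r) (by linarith) x1.le (by linarith) le_rfl _ _ _
      (hN i (Or.inl rfl))
    have h2 := H j r hr s3 g hg x (g + r) (by linarith) x1.le (by linarith) le_rfl _ _ _
      (hN j (Or.inr rfl))
    have h3 := rtW_cmp hne hpos (hη x) hW hg hat h1 h2
    have h4 : 0 < g + r - x := by linarith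
    rw [← sub_mul, abs_mul, abs_of_pos h4] at h3
    have h5 : |φ i - φ j| * (r / 2) ≤ |φ i - φ j| * (g + r - x) :=
      mul_le_mul_of_nonneg_left (by linarith) (abs_nonneg _)
    have h6 : |φ i - φ j| * r ≤ 2 * (1 / ((i : ℝ) + 1) + 1 / ((j : ℝ) + 1)) * r := by linarith
    exact le_of_mul_le_mul_right h6 hr
  have hbd : BddAbove (Set.range fun i : ℕ => φ i - 2 * (1 / ((i : ℝ) + 1))) := by
    refine ⟨φ 0 + 2 * (1 / (((0 : ℕ) : ℝ) + 1)), ?_⟩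
    rintro _ ⟨i, rfl⟩
    have := (abs_le.1 (key i 0)).2
    simp only
    linarith
  obtain ⟨φ₀, hφ₀⟩ : ∃ φ₀ : ℝ, φ₀ = ⨆ i : ℕ, (φ i - 2 * (1 / ((i : ℝ) + 1))) := ⟨_, rfl⟩
  have g1 : ∀ i : ℕ, φ i - 2 * (1 / ((i : ℝ) + 1)) ≤ φ₀ := fun i => by
    rw [hφ₀]
    exact le_ciSup hbd i
  have g2 : ∀ i : ℕ, φ₀ ≤ φ i + 2 * (1 / ((i : ℝ) + 1)) := fun i => by
    rw [hφ₀]
    refine ciSup_le fun j => ?_
    have := (abs_le.1 (key j i)).2
    linarith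
  refine ⟨φ₀, ?_, ?_⟩
  · by_contra hlt
    rw [not_le] at hlt
    obtain ⟨i, hi⟩ := exists_nat_one_div_lt (show 0 < -φ₀ / 2 by linarith)
    linarith [g1 i, hφ i]
  · intro e he'
    obtain ⟨i, hi⟩ := exists_nat_one_div_lt (show 0 < e / 5 by positivity)
    refine ⟨κ₀ i, hκ₀ i, r₀ i, hr₀ i, fun r hr hrr b hb x o a1 a2 a3 a4 nH nV lv hN => ?_⟩
    have h1 : 1 / ((i : ℝ) + 1) * r ≤ e / 5 * r := mul_le_mul_of_nonneg_right hi.le hr.le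
    have h4 : 0 < e * r := mul_pos he' hr
    have h2 := H i r hr hrr b hb x o a1 a2 a3 a4 nH nV lv (nrW_τ hN (by linarith))
    refine h2.le ?_
    have h3 : |φ i * (o - x) - φ₀ * (o - x)| ≤ 2 * (e / 5) * (2 * r) := by
      rw [← sub_mul, abs_mul, abs_of_nonneg (show 0 ≤ o - x by linarith)]
      refine mul_le_mul ?_ (by linarith) (by linarith) (by positivity)
      rw [abs_le]
      constructor <;> linarith [g1 i, g2 i]
    linarith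

end

end Pool.RV28
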