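import Pool.Agent.H60.ALT.Lin
import Pool.Agent.H30.LP.Ndq

/-!
# The rate of the velocities of the targets: numbers

`lin_ae2`: superadditive numbers with steps less than `lam` are linear in the small boxes of almost
every point. `GdR`: the data for `e` and the rate `φ` at `g`: the numbers of the targets are
`φ (o - w)`, the number of the velocities of the chain is constant, up to `e r` in the boxes of size
`r`. `ndr_ae`: at almost every point with good data of arbitrarily small intervals.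
-/

set_option autoImplicit false

namespace Pool.RV28

open Finset Real MvPolynomial MeasureTheory Set
open Pool.Agent.H49.Ent Pool.Agent.H32.Dense Pool.STK Pool.KA Pool.KSAT Pool.K2S Pool.PB Pool.S6C
  Pool.GEN Pool.RCD Pool.LA91 Pool.LP30
open Pool.OWN83 (TwoRelS TRelS rel_clsS)

/-- **Superadditive numbers with short steps** are linear in the small boxes of almost every
point. -/
theorem lin_ae2 {θ : ℚ → ℚ → ℝ} {A B lam : ℝ} (hlam : 0 < lam)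
    (h0 : ∀ w o : ℚ, A < w → w ≤ o → (o : ℝ) < B → (o : ℝ) < w + lam → 0 ≤ θ w o)
    (h2 : ∀ w v o : ℚ, A < w → w ≤ v → v ≤ o → (o : ℝ) < B → (o : ℝ) < w + lam →
      θ w v + θ v o ≤ θ w o) :
    ∀ᵐ g : ℝ, g ∈ Ioo A B → ∃ φ : ℝ, 0 ≤ φ ∧ ∀ e : ℝ, 0 < e → ∃ r₀ : ℝ, 0 < r₀ ∧
      ∀ r : ℝ, 0 < r → r < r₀ → ∀ w o : ℚ, g - r ≤ w → w ≤ o → (o : ℝ) ≤ g + r →
        |θ w o - φ * (o - w)| ≤ e * r := by
  have hall : ∀ᵐ g : ℝ, ∀ a b : ℚ, A < a → (b : ℝ) < B → (b : ℝ) < a + lam →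
      g ∈ Ioo (a : ℝ) b → ∃ φ : ℝ, 0 ≤ φ ∧ ∀ e : ℝ, 0 < e → ∃ r₀ : ℝ, 0 < r₀ ∧
      ∀ r : ℝ, 0 < r → r < r₀ → ∀ w o : ℚ, g - r ≤ w → w ≤ o → (o : ℝ) ≤ g + r →
        |θ w o - φ * (o - w)| ≤ e * r := by
    rw [ae_all_iff]
    intro a
    rw [ae_all_iff]
    intro b
    by_cases h : A < a ∧ (b : ℝ) < B ∧ (b : ℝ) < a + lam
    · obtain ⟨h1, h3, h4⟩ := h
      filter_upwards [Pool.ALT.lin_ae (θ := θ) (A := (a : ℝ)) (B := (b : ℝ))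
        (fun w o k1 k2 k3 => h0 w o (by linarith) k2 (by linarith) (by linarith))
        (fun w v o k1 k2 k3 k4 => h2 w v o (by linarith) k2 k3 (by linarith) (by linarith))]
        with g hg _ _ _ h5
      exact hg h5
    · refine Filter.Eventually.of_forall fun g h1 h3 h4 => ?_
      exact absurd ⟨h1, h3, h4⟩ h
  filter_upwards [hall] with g hg hgAB
  obtain ⟨a, ha1, ha2⟩ := exists_rat_btwn (show max A (g - lam / 2) < g from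
    max_lt hgAB.1 (by linarith))
  obtain ⟨b, hb1, hb2⟩ := exists_rat_btwn (show g < min B (g + lam / 2) from
    lt_min hgAB.2 (by linarith))
  have a1 := (le_max_left A (g - lam / 2)).trans_lt ha1
  have a2 := (le_max_right A (g - lam / 2)).trans_lt ha1
  have b1 := hb2.trans_le (min_le_left B (g + lam / 2))
  have b2 := hb2.trans_le (min_le_right B (g + lam / 2))
  exact hg a b a1 b1 (by linarith) ⟨ha2, hb1⟩

variable {m : ℕ} {α γ : ∀ J : ℕ, Fam m J → Type}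
  {f : ∀ (J : ℕ) (F : Fam m J), F.Ω → α J F} {y : ∀ (J : ℕ) (F : Fam m J), F.Ω → γ J F}
  {S : PCl m} {c : ℕ → Fin m} {d : ℕ} {s a b : ℝ} {wh : ℚ → ℝ} {sn : ℕ → ℝ → ℝ} {G : Set ℝ}
  {n : ℕ} {k : Fin n → Fin m} {tl : Fin n → ℚ → ℝ}

/-- **The data for `e`** at `g`, with the rate `φ`. -/
structure GdR {n : ℕ} (wh : ℚ → ℝ) (sn : ℕ → ℝ → ℝ) (d : ℕ) (tl : Fin n → ℚ → ℝ) (a b : ℝ)
    (θ₀ : EIx d → ℚ → ℝ) (θ : EIx d → ℚ → ℚ → ℝ) (g e φ : ℝ) (i : EIx d) : Prop where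
  adm : Adm wh sn d tl a b i
  ia : i.a < g
  ib : g < i.b
  φ0 : 0 ≤ φ
  r : ∃ r₀ : ℝ, 0 < r₀ ∧ ∀ r : ℝ, 0 < r → r < r₀ →
    (∀ w o : ℚ, g - r ≤ w → w ≤ o → (o : ℝ) ≤ g + r → |θ i w o - φ * (o - w)| ≤ e * r) ∧
    ∀ w v : ℚ, g - r ≤ w → w ≤ v → (v : ℝ) ≤ g + r → θ₀ i w - θ₀ i v ≤ e * r

/-- **Data for all `e`, with the rate**, at almost every point. -/
theorem ndr_ae (h : VCh S f y c d s a b wh sn G) (hT : TgC S c d wh a b k tl)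
    {θ₀ : EIx d → ℚ → ℝ} {θ : EIx d → ℚ → ℚ → ℝ} (hN : NdN S f y c d s a b wh sn k tl θ₀ θ) :
    ∀ᵐ g : ℝ, CrE wh sn d tl a b g → ∀ e : ℝ, 0 < e → ∃ (φ : ℝ) (i : EIx d),
      GdR wh sn d tl a b θ₀ θ g e φ i := by
  have hla : ∀ᵐ g : ℝ, ∀ i : {i : EIx d // Adm wh sn d tl a b i},
      g ∈ Ioo (i.1.a : ℝ) i.1.b → ∃ φ : ℝ, 0 ≤ φ ∧ ∀ e : ℝ, 0 < e →
      ∃ r₀ : ℝ, 0 < r₀ ∧ ∀ r : ℝ, 0 < r → r < r₀ →
      ∀ w o : ℚ, g - r ≤ w → w ≤ o → (o : ℝ) ≤ g + r →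
        |θ i.1 w o - φ * (o - w)| ≤ e * r := by
    rw [ae_all_iff]
    intro i
    have hc := h.cut i.2.ha i.2.hb
    obtain ⟨h0, h2⟩ := TRelS.super hc.ne hc.pos hc.b1.le hc.rn (i.2.rel h hT) (hN i.1 i.2)
    exact lin_ae2 (by exact_mod_cast i.2.lam0) h0 h2
  filter_upwards [hla, ndq_ae h hT hN] with g h1 h2 hg e he
  obtain ⟨i, i1, i2, i3, r₁, hr₁, H1⟩ := h2 hg e he
  obtain ⟨φ, hφ, H2⟩ := h1 ⟨i, i1⟩ ⟨i2, i3⟩
  obtain ⟨r₂, hr₂, H2⟩ := H2 e he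
  exact ⟨φ, i, i1, i2, i3, hφ, min r₁ r₂, lt_min hr₁ hr₂, fun r hr hrr =>
    ⟨H2 r hr (hrr.trans_le (min_le_right _ _)), (H1 r hr (hrr.trans_le (min_le_left _ _))).2⟩⟩

end Pool.RV28
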