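import Pool.Agent.H28.RV.Pkg
import Pool.Agent.H28.RV.Uni

/-!
# The rate of the velocity of a place as a property of one window

`VrU`: the property of a window (index: the place): one rate `φ` for all errors. `aePG_vu`: it holds at
almost every window, in a subclass; `her_vu`: it is hereditary.
-/

set_option autoImplicit false

namespace Pool.RV28

open Finset Real MvPolynomial MeasureTheory
open Pool.Agent.H49.Ent Pool.Agent.H32.Dense Pool.STK Pool.KA Pool.KSAT Pool.K2S Pool.PB Pool.S6C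
  Pool.GEN Pool.RCD Pool.LA91 Pool.LP30 Pool.PKG Pool.CHT Pool.GRW
open Pool.OWN83 (TwoRelS TRelS ae_shift rel_clsS)
open Pool.AVG96 (fl fl_mem fl_mono le_fl whG gap_ae)
open Pool.TOP (TopS)

/-- **The rate of the velocity of the place** `p` over the places below it, given the near path, in
the boxes around the window `x`: one rate `φ` for all errors. -/
structure VrU {n : ℕ} (p : ℕ) (k₀ : ℕ) (S : PCl n)
    (P : List (Fin n) × Fin n → ℝ → ℝ → ℝ) (θ : ℝ) (c : ℕ → Fin n) (Pt : ℝ → ℝ → ℝ)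
    (r : ℝ → ℝ) (L T : ℕ → ℝ → ℝ → ℝ) (κ : ℕ → Kg) (G : Set ℝ) (x : ℝ) : Prop where
  /-- The numbers of the records exist. -/
  rn : ∃ η : ℚ → ℝ, ∀ w : ℚ, RNum S (fun J F => ptr F J) (vg (w : ℝ)) (η w)
  /-- The chains at the windows of `G`. -/
  ch : ∀ d < n, ChG S c d (fun l w => L l w w) G
  /-- The rate. -/
  rt : p + 1 < n → (∀ l < p, κ l = .one) → ∃ φ : ℝ, 0 ≤ φ ∧
    RtU S (fun (_ : ℕ) (F : Fam n _) => F.T) c p (fun _ : Fin 1 => c p)
      (fun l w => L l w w) (fun (_ : Fin 1) w => L p w w) G x φ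

/-- The property passes to subclasses. -/
theorem VrU.sub {n : ℕ} {p : ℕ} {k₀ : ℕ} {S S' : PCl n}
    {P : List (Fin n) × Fin n → ℝ → ℝ → ℝ} {θ : ℝ} {c : ℕ → Fin n} {Pt : ℝ → ℝ → ℝ}
    {r : ℝ → ℝ} {L T : ℕ → ℝ → ℝ → ℝ} {κ : ℕ → Kg} {G : Set ℝ} {x : ℝ}
    (hs : ∀ (τ : ℝ) (J : ℕ) (F : Fam n J) (A : F.Ω → Prop), S'.St τ J F A → S.St τ J F A)
    (h : VrU p k₀ S P θ c Pt r L T κ G x) : VrU p k₀ S' P θ c Pt r L T κ G x where
  rn := by
    obtain ⟨η, hη⟩ := h.rn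
    exact ⟨η, fun w => (hη w).sub hs⟩
  ch := fun d hd => (h.ch d hd).sub hs
  rt := fun e1 e2 => by
    obtain ⟨φ, hφ, H⟩ := h.rt e1 e2
    exact ⟨φ, hφ, H.sub hs⟩

theorem her_vu (n : ℕ) : HerQ (VrU : PropG n ℕ) :=
  fun _ _ _ _ _ _ _ _ _ _ _ _ _ _ hs h => h.sub hs

/-- **The property `VrU` holds at almost every window**, in a subclass. -/
theorem aePG_vu (n : ℕ) : AePG n (VrU : PropG n ℕ) := by
  intro hn S P r P' Λ PB PQ H hTop hF o G hG hGs
  obtain ⟨al, g₀, s, d', e', K₁, N₁, hal, hg₀, hC⟩ := H.cl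
  have htm : TmC S 6 := Pool.GEN.N83.clx_tmc hC
  have hM : Bas S (fun J F A => (cnt F.p (ptr F J) A : ℝ) ≤ Real.exp ((4 * n + 1) * J)) :=
    Bas.mono 0 hC.cnt fun J _ F A h => h J le_rfl
  have hW : ∀ d < n, ChG S (cc hn o.1.1) d (fun l w => LvL hn P P' o l w w) G :=
    fun d hd => gs_chG H.toPk hTop hF hGs (by omega)
  obtain ⟨S₁, a1, a2, η, hη⟩ := rnum_ptr hC.ne hC.pos hM
  have hatt : ∀ d < n - 1, ∀ w ∈ G, ∃ rk, 0 ≤ rk ∧
      Att S₁ ((range d).image (cc hn o.1.1)) (cc hn o.1.1 d) w (LvL hn P P' o d w w) rk := by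
    intro d hd w hw
    obtain ⟨u₁, rd, h1, h2⟩ := (((hW (d + 1) (by omega)).sub a2).ch w hw)
    exact ⟨rd d, h1 d (by omega), h2.att d (Nat.zero_le _) (by omega)⟩
  have hnic : ∀ d < n - 1, ∀ B : ℝ, B < 1 → NiC S₁ (cc hn o.1.1) d (fun _ : Fin 1 => cc hn o.1.1 d)
      (fun l w => LvL hn P P' o l w w) (fun _ w => LvL hn P P' o d w w) G 0 0 B := by
    intro d hd B hB
    have hmon : ∀ l ≤ n - 1, ∀ w ∈ G, ∀ v ∈ G, w ≤ v → LvL hn P P' o l w w - w ≤
        LvL hn P P' o l v v - v := fun l hl w hw v hv hwv =>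
      law_gap (H.lawL o l) (hGs hw).1.1.1.le hwv (hGs hv).1.1.2.1.le
        (lev_lt' H.toPk hTop hF (hGs hv) hl)
    exact
    { ne := a1
      pos := fun τ J F A h => hC.pos τ J F A (a2 τ J F A h)
      tm := ⟨6, fun τ J F A hτ h => htm τ J F A hτ (a2 τ J F A h)⟩
      rn := fun w _ _ => ⟨η w, by
        rw [add_zero]
        exact hη w⟩
      cl := hG
      ch := (hW d (by omega)).sub a2
      mn := fun l hl w hw v hv hwv => by
        have := hmon l (by omega) w hw v hv hwv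
        linarith
      att := fun _ w hw => hatt d hd w hw
      mT := fun _ w hw v hv hwv => hmon d (by omega) w hw v hv hwv
      B1 := hB }
  obtain ⟨S₂, b1, b2, b3⟩ := rt_le (sdI_T (cc hn o.1.1)) (n - 1) a1 hnic
  refine ⟨S₂, b1, fun τ J F A h => a2 τ J F A (b2 τ J F A h), ?_⟩
  filter_upwards [b3, H.toPkT.dia_all H.pble hTop hF, gap_ae hG] with g h1 hdia hgap hg κ hκ p
  have ho := hGs hg
  have g0 : 0 < g := ho.1.1.1
  have g1 : g < 1 := ho.1.1.2.1
  refine ⟨0, ⟨η, fun w => (hη w).sub b2⟩, fun d hd => ((hW d hd).sub a2).sub b2,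
    fun e1 e2 => ?_⟩
  have hdl : ∀ l < p, HasDerivAt (fun x => LvL hn P P' o l x x) 1 g := by
    intro l hl
    have h2 := hκ l (by omega)
    rw [e2 l hl] at h2
    have h3 : deriv (fun a => LvL hn P P' o l a a) g = 1 := h2
    have h4 := (hdia o ho l (by omega)).1.hasDerivAt
    rw [h3] at h4
    exact h4
  have hdT := (hdia o ho p (by omega)).1.hasDerivAt
  have hs1 := slope_ge (H.lawL o p) g0 g1 (lev_lt' H.toPk hTop hF ho (by omega)) hdT
  have hR := h1 p (by omega) hg g0 g1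
    (fun l hl => lev_lt' H.toPk hTop hF ho (by omega)) _ (by linarith)
    (slB_of hdl hdT le_rfl (hgap hg)) (tgB_of hdT hs1 le_rfl)
  exact rtG_uni b1 (fun τ J F A h => hC.pos τ J F A (a2 τ J F A (b2 τ J F A h)))
    (fun w => ⟨η w, (hη w).sub b2⟩) (((hW p (by omega)).sub a2).sub b2) hg
    (fun _ => by
      obtain ⟨rk, r1, r2⟩ := hatt p (by omega) g hg
      exact ⟨rk, r1, r2.sub b2⟩)
    (show 0 ≤ deriv (fun x => LvL hn P P' o p x x) g by linarith) (tgB_of hdT hs1 le_rfl) hR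

end Pool.RV28
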