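import Pool.Agent.H28.RV.Rcd

/-!
# The rate at the windows of the records, in subclasses

`RtU.f1s`, `RtU.alvs`: as `RtU.f1`, `RtU.alv`, the bounds do not depend on the subclass with numbers
at the window of the record.
-/

set_option autoImplicit false

namespace Pool.RV28

open Finset Real MvPolynomial
open Pool.Agent.H49.Ent Pool.Agent.H32.Dense Pool.STK Pool.KA Pool.KSAT Pool.K2S Pool.PB Pool.S6C
  Pool.GEN Pool.RCD Pool.LA91 Pool.LP30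
open Pool.OWN68 (cl2_vg F1)
open Pool.FLN19 (AlvQ)

variable {m : ℕ} {S : PCl m} {c : ℕ → Fin m} {r : ℕ} {k : Fin m} {sn : ℕ → ℝ → ℝ} {T : ℝ → ℝ}
  {G : Set ℝ} {g φ Sr : ℝ}

/-- **Dead**, in all subclasses with numbers at `t`: the first jet is few bits at all small
windows. -/
theorem RtU.f1s {C₀ : ℝ} (htm : TmC S C₀)
    (hpos : ∀ (τ : ℝ) (J : ℕ) (F : Fam m J) (A : F.Ω → Prop), S.St τ J F A → 0 < Pe F.p A)
    (hU : RtU S (fun (_ : ℕ) (F : Fam m _) => F.T) c r (fun _ : Fin 1 => k) sn (fun _ w => T w)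
      G g φ)
    (hW : ChG S c r sn G) (hat : ∀ b ∈ G, ∃ rk, 0 ≤ rk ∧ Att S ((range r).image c) k b (T b) rk)
    (g1 : g < 1) (hSr : 0 ≤ Sr) (hd : HasDerivAt T Sr g) {dd K₀ kf ph : ℝ} (hφ : φ < dd)
    (hK : 0 ≤ K₀) (hkf : Sr + 4 * r + 3 ≤ kf) (hph : 0 ≤ ph) (hph1 : ph ≤ 1) :
    ∃ q₁ : ℝ, 0 < q₁ ∧ ∀ q t : ℝ, 0 < q → q < q₁ → t ∈ G → |t - g| ≤ K₀ * q →
      ∀ S' : PCl m, (∀ (τ : ℝ) (J : ℕ) (F : Fam m J) (A : F.Ω → Prop), S'.St τ J F A →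
        S.St τ J F A) → (∃ η, RNum S' (fun J F => ptr F J) (vg t) η) →
      ∀ (pf : ℕ → ℝ) (pr : ℝ) (Nf : ℕ → ℕ → ℝ), (∀ l < r, sn l t - ph * q ≤ pf l) →
      T t - ph * q ≤ pr → (∀ l < r, ∀ j ≤ 1, Nf l j = sn l t + kf * q - (j : ℕ) * t) →
      ∃ e : ℝ, 0 < e ∧ F1 S' (fun J F => ptr F J) (vg t) (fun _ F => F.T)
        (qJets m c 0 r 1 (fun _ _ => t) (fun l _ => pf l) Nf)
        (qJet m ((range r).image c) k 1 t pr (T t + (Sr - 1) * q - t)) e (dd * q) := by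
  have htm' : ∀ {S' : PCl m}, (∀ (τ : ℝ) (J : ℕ) (F : Fam m J) (A : F.Ω → Prop), S'.St τ J F A →
      S.St τ J F A) → TmC S' C₀ := fun hs τ J F A hτ hSt => htm τ J F A hτ (hs _ _ _ _ hSt)
  have hat' : ∀ {S' : PCl m}, (∀ (τ : ℝ) (J : ℕ) (F : Fam m J) (A : F.Ω → Prop), S'.St τ J F A →
      S.St τ J F A) → ∀ b : ℝ, (∃ rk, 0 ≤ rk ∧ Att S ((range r).image c) k b (T b) rk) →
      ∃ rk, 0 ≤ rk ∧ Att S' ((range r).image c) k b (T b) rk := fun hs b ⟨rk, h1, h2⟩ =>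
    ⟨rk, h1, h2.sub hs⟩
  obtain ⟨R, hR⟩ : ∃ R, R = K₀ + 1 := ⟨_, rfl⟩
  have hR1 : 1 ≤ R := by linarith
  have hR0 : 0 < R := by linarith
  obtain ⟨ε, hε0, hε1, hε⟩ : ∃ ε : ℝ, 0 < ε ∧ ε ≤ 1 ∧ 4 * ε ≤ dd - φ :=
    ⟨min 1 ((dd - φ) / 4), lt_min one_pos (by linarith), min_le_left _ _, by
      linarith [min_le_right 1 ((dd - φ) / 4)]⟩
  have hεR : 0 < ε / R := by positivity
  obtain ⟨κ₀, hκ₀, r₀, hr₀, H⟩ := hU (ε / R) hεR
  obtain ⟨ρ₂, hρ₂, HD⟩ := der_box hd hεR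
  obtain ⟨C, hC⟩ : ∃ C : ℝ, C = Sr + 4 * r + 5 + K₀ := ⟨_, rfl⟩
  have hr0 : (0 : ℝ) ≤ r := Nat.cast_nonneg r
  have hC0 : 0 < C := by linarith
  obtain ⟨q₂, hq₂, Q2⟩ := ex_sm hR0 (lt_min hr₀ hρ₂)
  obtain ⟨q₃, hq₃, Q3⟩ := ex_sm hC0 (lt_min hκ₀ (show 0 < 1 - g by linarith))
  refine ⟨min q₂ q₃, lt_min hq₂ hq₃, fun q t hq hqq ht htg S' hs hη pf pr Nf hpf hpr hNf => ?_⟩
  have z2 := Q2 q hq (hqq.trans_le (min_le_left _ _))
  have z3 := Q3 q hq (hqq.trans_le (min_le_right _ _))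
  have w1 : R * q < r₀ := z2.trans_le (min_le_left _ _)
  have w2 : R * q < ρ₂ := z2.trans_le (min_le_right _ _)
  have w3 : C * q < κ₀ := z3.trans_le (min_le_left _ _)
  have w4 : C * q < 1 - g := z3.trans_le (min_le_right _ _)
  have hRq : 0 < R * q := mul_pos hR0 hq
  have eR : ε / R * (R * q) = ε * q := by field_simp
  have hεq : ε * q ≤ 1 * q := mul_le_mul_of_nonneg_right hε1 hq.le
  have hphq : ph * q ≤ 1 * q := mul_le_mul_of_nonneg_right hph1 hq.le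
  have hph0 : 0 ≤ ph * q := mul_nonneg hph hq.le
  have hKq : 0 ≤ K₀ * q := mul_nonneg hK hq.le
  have hSq : 0 ≤ Sr * q := mul_nonneg hSr hq.le
  have hrq : 0 ≤ (r : ℝ) * q := mul_nonneg hr0 hq.le
  have hkfq : (Sr + 4 * r + 3) * q ≤ kf * q := mul_le_mul_of_nonneg_right hkf hq.le
  have t1 := abs_le.1 htg
  rw [hC] at w3 w4
  rw [hR] at w1 w2 hRq
  have hbx : g - (K₀ + 1) * q ≤ t ∧ t + q ≤ g + (K₀ + 1) * q := by
    constructor <;> linarith [t1.1, t1.2]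
  have hD := abs_le.1 (HD ((K₀ + 1) * q) hRq w2 t (t + q) hbx.1 (by linarith) hbx.2)
  rw [← hR, eR] at hD
  have hND : NrW sn r (fun (_ : Fin 1) w => T w)
      (fun l => sn l t + dgl ((Sr + 1) * q) q r l + 2 * q)
      (fun l => sn l t + dgl ((Sr + 1) * q) q r l + 2 * q - t) (dgl ((Sr + 1) * q) q r) t (t + q)
      (ε / R * ((K₀ + 1) * q)) κ₀ := by
    refine nrW_dgl (by positivity) hq (by linarith) ?_ (fun _ => ?_) (by linarith)
    · rw [← hR, eR]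
      linarith
    · linarith [hD.2]
  have hRt := H ((K₀ + 1) * q) hRq w1 t ht t (t + q) hbx.1 le_rfl (by linarith) hbx.2 _ _ _ hND
  rw [← hR, eR, show t + q - t = q by ring] at hRt
  have hl2 : Real.log 2 ≤ 1 := by
    have := Real.log_two_lt_d9
    linarith
  have hl0 : 0 < Real.log 2 := Real.log_pos one_lt_two
  refine rt_f1 (kf := kf * q) (φ := ph * q) (A := (Sr + 1) * q) (D := q) (σ := q) (c₀ := ε * q)
    (htm' hs) (fun τ J F A h => hpos τ J F A (hs τ J F A h)) (hW.sub hs) ht hη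
    (hat' hs _ (hat t ht)) hph0 hq (by positivity) hq hpf hNf (by linarith) (by linarith)
    (by linarith) (hRt.sub hs) hpr (by linarith) (by positivity) ?_ ?_
  · have h1 : T t + (Sr - 1) * q - t - (T (t + q) - (t + q)) ≤ ε * q := by linarith [hD.1]
    have h2 := mul_le_mul_of_nonneg_left h1 hl0.le
    have h3 : Real.log 2 * (ε * q) ≤ 1 * (ε * q) := mul_le_mul_of_nonneg_right hl2 (by positivity)
    linarith
  · have h1 : 4 * ε * q ≤ (dd - φ) * q := mul_le_mul_of_nonneg_right hε hq.le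
    have h2 : 0 < ε * q := by positivity
    linarith

/-- **Alive**, in all subclasses with numbers at `x`: the velocity has many bits at all windows of the small boxes, even given a fixed amount
of digits of the near path. -/
theorem RtU.alvs {C₀ : ℝ} (htm : TmC S C₀)
    (hpos : ∀ (τ : ℝ) (J : ℕ) (F : Fam m J) (A : F.Ω → Prop), S.St τ J F A → 0 < Pe F.p A)
    (hU : RtU S (fun (_ : ℕ) (F : Fam m _) => F.T) c r (fun _ : Fin 1 => k) sn (fun _ w => T w)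
      G g φ)
    (hW : ChG S c r sn G) (hat : ∀ b ∈ G, ∃ rk, 0 ≤ rk ∧ Att S ((range r).image c) k b (T b) rk)
    (g1 : g < 1) (hSr : 0 ≤ Sr) (hd : HasDerivAt T Sr g) {c' R θ : ℝ} (hc' : c' < φ)
    (hR : 0 < R) (hθ : 0 < θ) :
    ∃ κ₀ : ℝ, 0 < κ₀ ∧ ∃ ε₀ : ℝ, 0 < ε₀ ∧ ∃ q₁ : ℝ, 0 < q₁ ∧ ∀ q b x o : ℝ, 0 < q → q < q₁ →
      b ∈ G → g - R * q ≤ b → b ≤ x → x + θ * q ≤ o → o ≤ g + R * q →
      ∀ S' : PCl m, (∀ (τ : ℝ) (J : ℕ) (F : Fam m J) (A : F.Ω → Prop), S'.St τ J F A →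
        S.St τ J F A) → (∃ η, RNum S' (fun J F => ptr F J) (vg x) η) →
      ∀ (kk : ℝ) (pf : ℕ → ℝ) (pr N' : ℝ) (Nf : ℕ → ℕ → ℝ), kk ≤ κ₀ → (∀ l < r, sn l b - q ≤ pf l) →
      T b - q ≤ pr → (∀ l < r, ∀ j ≤ 1, Nf l j = sn l b + kk - (j : ℕ) * b) →
      T o - o - ε₀ * q ≤ N' →
      ∃ e : ℝ, 0 < e ∧ AlvQ S' x (fun (_ : ℕ) (F : Fam m _) => F.T)
        (qJets m c 0 r 1 (fun _ _ => b) (fun l _ => pf l) Nf)
        (qJet m ((range r).image c) k 1 b pr N') e (c' * (o - x)) := by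
  have htm' : ∀ {S' : PCl m}, (∀ (τ : ℝ) (J : ℕ) (F : Fam m J) (A : F.Ω → Prop), S'.St τ J F A →
      S.St τ J F A) → TmC S' C₀ := fun hs τ J F A hτ hSt => htm τ J F A hτ (hs _ _ _ _ hSt)
  have hat' : ∀ {S' : PCl m}, (∀ (τ : ℝ) (J : ℕ) (F : Fam m J) (A : F.Ω → Prop), S'.St τ J F A →
      S.St τ J F A) → ∀ b : ℝ, (∃ rk, 0 ≤ rk ∧ Att S ((range r).image c) k b (T b) rk) →
      ∃ rk, 0 ≤ rk ∧ Att S' ((range r).image c) k b (T b) rk := fun hs b ⟨rk, h1, h2⟩ =>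
    ⟨rk, h1, h2.sub hs⟩
  obtain ⟨ε, hε0, hε1, hε⟩ : ∃ ε : ℝ, 0 < ε ∧ ε ≤ 1 ∧ 4 * ε ≤ (φ - c') * θ := by
    have h1 : 0 < (φ - c') * θ := mul_pos (by linarith) hθ
    exact ⟨min 1 ((φ - c') * θ / 4), lt_min one_pos (by linarith), min_le_left _ _, by
      linarith [min_le_right 1 ((φ - c') * θ / 4)]⟩
  obtain ⟨R', hR'⟩ : ∃ R' : ℝ, R' = R + 1 := ⟨_, rfl⟩
  have hR0 : 0 < R' := by linarith
  have hεR : 0 < ε / R' := by positivity
  obtain ⟨κ₁, hκ₁, r₀, hr₀, H⟩ := hU (ε / R') hεR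
  obtain ⟨ρ₂, hρ₂, HD⟩ := der_box hd hεR
  obtain ⟨D, hD⟩ : ∃ D : ℝ, D = 2 * R + 1 := ⟨_, rfl⟩
  have hD0 : 0 < D := by linarith
  have hr0 : (0 : ℝ) ≤ r := Nat.cast_nonneg r
  obtain ⟨C, hC⟩ : ∃ C : ℝ, C = (Sr + 1) * D + 4 * (D * r) + 2 * D + 2 + R := ⟨_, rfl⟩
  have hC0 : 0 < C := by
    rw [hC]
    positivity
  obtain ⟨κ₀, hκ0, u1, u2⟩ : ∃ κ₀ : ℝ, 0 < κ₀ ∧ κ₀ ≤ κ₁ / 2 ∧ κ₀ ≤ (1 - g) / 2 :=
    ⟨min (κ₁ / 2) ((1 - g) / 2), lt_min (by linarith) (by linarith), min_le_left _ _,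
      min_le_right _ _⟩
  obtain ⟨q₂, hq₂, Q2⟩ := ex_sm hR0 (lt_min hr₀ hρ₂)
  obtain ⟨q₃, hq₃, Q3⟩ := ex_sm hC0 (lt_min (half_pos hκ₁) (show 0 < (1 - g) / 2 by linarith))
  refine ⟨κ₀, hκ0, ε, hε0, min q₂ q₃, lt_min hq₂ hq₃,
    fun q b x o hq hqq hb a1 a2 a3 a4 S' hs hη kk pf pr N' Nf hkk hpf hpr hNf hN' => ?_⟩
  have z2 := Q2 q hq (hqq.trans_le (min_le_left _ _))
  have z3 := Q3 q hq (hqq.trans_le (min_le_right _ _))
  have w1 : R' * q < r₀ := z2.trans_le (min_le_left _ _)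
  have w2 : R' * q < ρ₂ := z2.trans_le (min_le_right _ _)
  have w3 : C * q < κ₁ / 2 := z3.trans_le (min_le_left _ _)
  have w4 : C * q < (1 - g) / 2 := z3.trans_le (min_le_right _ _)
  have hRq : 0 < R' * q := mul_pos hR0 hq
  have eR : ε / R' * (R' * q) = ε * q := by field_simp
  have hεq : ε * q ≤ 1 * q := mul_le_mul_of_nonneg_right hε1 hq.le
  have hθq : 0 < θ * q := mul_pos hθ hq
  have hDq : 0 < D * q := mul_pos hD0 hq
  have hSq : 0 ≤ Sr * (D * q) := mul_nonneg hSr hDq.le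
  have hrq : 0 ≤ D * q * r := mul_nonneg hDq.le hr0
  have hRq' : 0 < R * q := mul_pos hR hq
  have eD : D * q = 2 * (R * q) + q := by rw [hD]; ring
  have eR' : R' * q = R * q + q := by rw [hR']; ring
  have eC : C * q = Sr * (D * q) + D * q + 4 * (D * q * r) + 2 * (D * q) + 2 * q + R * q := by
    rw [hC]; ring
  obtain ⟨A, hA, v1, v2, v3⟩ : ∃ A : ℝ, 0 ≤ A ∧ kk ≤ A ∧ (Sr + 1) * (D * q) ≤ A ∧
      A ≤ κ₀ + (Sr + 1) * (D * q) := by
    have h1 : 0 ≤ (Sr + 1) * (D * q) := by positivity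
    refine ⟨max kk ((Sr + 1) * (D * q)), h1.trans (le_max_right _ _), le_max_left _ _,
      le_max_right _ _, max_le (by linarith) (by linarith)⟩
  have hob : o - b ≤ D * q := by linarith
  have hb0 : b ≤ o := by linarith
  have hHD := abs_le.1 (HD (R' * q) hRq w2 b o (by linarith) hb0 (by linarith))
  rw [eR] at hHD
  have hSob : Sr * (o - b) ≤ Sr * (D * q) := mul_le_mul_of_nonneg_left hob hSr
  have hND : NrW sn r (fun (_ : Fin 1) w => T w)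
      (fun l => sn l b + dgl A (D * q) r l + 2 * (D * q))
      (fun l => sn l b + dgl A (D * q) r l + 2 * (D * q) - b) (dgl A (D * q) r) b o
      (ε / R' * (R' * q)) κ₁ := by
    refine nrW_dgl hA hDq hob ?_ (fun _ => ?_) (by linarith)
    · rw [eR]
      linarith
    · linarith [hHD.2]
  have hRt := H (R' * q) hRq w1 b hb x o (by linarith) a2 (by linarith) (by linarith) _ _ _ hND
  rw [eR] at hRt
  have hl2 : Real.log 2 ≤ 1 := by
    have := Real.log_two_lt_d9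
    linarith
  have hl0 : 0 < Real.log 2 := Real.log_pos one_lt_two
  refine rt_alv (kf := kk) (φ := q) (A := A) (D := D * q) (σ := q) (c₀ := ε * q)
    (htm' hs) (fun τ J F A h => hpos τ J F A (hs τ J F A h)) (hW.sub hs) hb a2 (by linarith) hη
    (hat' hs _ (hat b hb)) hq.le hq hA hDq hpf hNf v1 (by linarith)
    (by linarith) (hRt.sub hs) hpr (by linarith [hHD.2]) (by positivity) ?_ ?_
  · have h1 : T o - o - N' ≤ ε * q := by linarith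
    have h2 := mul_le_mul_of_nonneg_left h1 hl0.le
    have h3 : Real.log 2 * (ε * q) ≤ 1 * (ε * q) := mul_le_mul_of_nonneg_right hl2 (by positivity)
    linarith
  · have h1 : 4 * ε * q ≤ (φ - c') * θ * q := mul_le_mul_of_nonneg_right hε hq.le
    have h2 : 0 < ε * q := by positivity
    have h3 : (φ - c') * (θ * q) ≤ (φ - c') * (o - x) :=
      mul_le_mul_of_nonneg_left (by linarith) (by linarith)
    linarith

end Pool.RV28
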